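import Pool.Agent.H30KAM.Limit

/-!
Bounds near the initial approximation.
-/

set_option autoImplicit false

namespace Pool.Agent.H30KAM

noncomputable section

open Complex Real

theorem nice_of_close {s μ₀ P₀ β γ r₁ r₂ g₀ N₀ τ η P Pm Γ N T ρ : ℝ}
    {f₀ G₀ CG Cp : ℂ → ℂ}
    (hp₀ : W μ₀ P₀ (deriv f₀)) (hCG : W μ₀ β CG) (h1 : W μ₀ r₁ (fun z => 1 - CG z * (2 * G₀ z)))
    (hCp : W μ₀ γ Cp) (h2 : W μ₀ r₂ (fun z => 1 - Cp z * deriv f₀ z)) (hG₀ : W μ₀ g₀ G₀)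
    (hJ : W μ₀ N₀ (fun z => 2 * G₀ (z + s) * (Cp z * Cp (z + (2 * s : ℝ)))))
    (hτ : τ ≤ ‖avg (fun z => 2 * G₀ (z + s) * (Cp z * Cp (z + (2 * s : ℝ))))‖)
    (hη : 0 < η) (hP : P₀ + η ≤ P)
    (hr1 : r₁ + 2 * β * η < 1) (hΓ : β ≤ Γ * (1 - (r₁ + 2 * β * η)))
    (hr2 : r₂ + γ * η < 1) (hPm : γ ≤ Pm * (1 - (r₂ + γ * η)))
    (hρ : 2 * η * Pm ^ 2 + 2 * g₀ * ((Pm * (r₂ + γ * η)) * (Pm + γ)) ≤ ρ)
    (hN : N₀ + ρ ≤ N) (hT0 : 0 ≤ T) (hT : 1 ≤ T * (τ - ρ)) :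
    ∀ μ f G, 0 < μ → μ ≤ μ₀ → (∃ R, W μ R f) → (∃ R, W μ R G) →
    W μ η (fun z => deriv f z - deriv f₀ z) → W μ η (fun z => G z - G₀ z) →
    Nice s μ P Pm Γ N T f G := by
  intro μ f G hμ hμle hf hG hcf hcG
  have hμ0 := hμ.le
  have hp₀' := hp₀.mono_strip hμle
  have hCG' := hCG.mono_strip hμle
  have h1' := h1.mono_strip hμle
  have hCp' := hCp.mono_strip hμle
  have h2' := h2.mono_strip hμle
  have hG₀' := hG₀.mono_strip hμle
  have hJ' := hJ.mono_strip hμle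
  have hβ0 := hCG.nonneg
  have hγ0 := hCp.nonneg
  have hg0 := hG₀.nonneg
  have hp : W μ P (deriv f) := by
    apply ((hp₀'.add hcf).mono hP).congr
    intro z _
    ring
  -- the inverse of 2 G
  have e1 : W μ (r₁ + 2 * β * η) (fun z => 1 - CG z * (2 * G z)) := by
    have h3 := h1'.sub ((hCG'.mul hμ0 hcG).smul 2)
    have h4 : r₁ + ‖(2 : ℂ)‖ * (β * η) = r₁ + 2 * β * η := by
      norm_num
      ring
    rw [h4] at h3
    apply h3.congr
    intro z _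
    ring
  obtain ⟨gi, gne⟩ := W.inv_of_approx hμ0 hCG' e1 hr1
  have hGi : W μ Γ (fun z => (2 * G z)⁻¹) := by
    apply gi.mono
    rw [div_le_iff₀ (by linarith)]
    exact hΓ
  -- the inverse of the derivative
  have e2 : W μ (r₂ + γ * η) (fun z => 1 - Cp z * deriv f z) := by
    have h3 := h2'.sub (hCp'.mul hμ0 hcf)
    apply h3.congr
    intro z _
    ring
  obtain ⟨pi, pne⟩ := W.inv_of_approx hμ0 hCp' e2 hr2
  have hPi : W μ Pm (fun z => (deriv f z)⁻¹) := by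
    apply pi.mono
    rw [div_le_iff₀ (by linarith)]
    exact hPm
  have hPm0 := hPi.nonneg
  -- the difference of the inverse and its approximation
  have e3 : W μ (Pm * (r₂ + γ * η)) (fun z => (deriv f z)⁻¹ - Cp z) := by
    apply (hPi.mul hμ0 e2).congr
    intro z hz
    have := pne z hz
    field_simp
  -- the inverse twist
  have e4 : W μ ρ (fun z => ik s f G z - 2 * G₀ (z + s) * (Cp z * Cp (z + (2 * s : ℝ)))) := by
    have t1 := ((hcG.shift s).mul hμ0 (hPi.mul hμ0 (hPi.shift (2 * s)))).smul 2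
    have t2 := ((hG₀'.shift s).mul hμ0 ((e3.mul hμ0 (hPi.shift (2 * s))).add
      (hCp'.mul hμ0 (e3.shift (2 * s))))).smul 2
    have t3 := t1.add t2
    have h4 : ‖(2 : ℂ)‖ * (η * (Pm * Pm)) + ‖(2 : ℂ)‖ * (g₀ * (Pm * (r₂ + γ * η) * Pm +
        γ * (Pm * (r₂ + γ * η)))) ≤ ρ := by
      refine le_trans (le_of_eq ?_) hρ
      norm_num
      ring
    apply (t3.mono h4).congr
    intro z _
    unfold ik
    ring
  have hk : W μ N (ik s f G) := by
    apply ((hJ'.add e4).mono hN).congr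
    intro z _
    ring
  refine ⟨hf, hG, hp, hPi, pne, hGi, ?_, hk, ?_⟩
  · intro z hz h
    exact gne z hz (by rw [h, mul_zero])
  · have h5 := e4.norm_avg_le hμ
    rw [avg_sub hμ hk hJ'] at h5
    have h6 : τ - ρ ≤ ‖avg (ik s f G)‖ := by
      have h7 := norm_sub_norm_le (avg (fun z => 2 * G₀ (z + s) *
        (Cp z * Cp (z + (2 * s : ℝ))))) (avg (ik s f G))
      rw [norm_sub_rev] at h7
      linarith
    exact hT.trans (mul_le_mul_of_nonneg_left h6 hT0)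

end

end Pool.Agent.H30KAM
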