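import Pool.Agent.H30KAM.Data

/-!
Kernel checks, part A.
-/

set_option autoImplicit false

namespace Pool.Agent.H30KAM

/-- powers of the rotation -/
def Rf : ℤ → ℤ × ℤ
  | Int.ofNat n => (((2 ^ 100, 0) :: Qt : List (ℤ × ℤ))).getD n (0, 0)
  | Int.negSucc n => gcj ((((2 ^ 100, 0) :: Qt : List (ℤ × ℤ))).getD (n + 1) (0, 0))

/-- reciprocals of the powers -/
def Rm (k : ℤ) : ℤ × ℤ := Rf (-k)

/-- squares of the powers -/
def R2 (k : ℤ) : ℤ × ℤ := Rf (2 * k)

/-- coefficients of the main part of the error -/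
def E90 : List (ℤ × ℤ) :=
  ladd (List.replicate 90 (0, 0) ++
      ladd (had Rf (-90) L90) (lsmul (-1, 0) (had Rm (-90) L90)))
    (lsmul (-1, 0) (lmul L90.reverse L90.reverse))

theorem check_chain : chk q1 (2 ^ 100, 0) Qt = true := by decide +kernel

theorem check_nI_L : nI 90 (-90) L90 * 10 ^ 3 ≤ 300 * (12 * 8 ^ 90 * 2 ^ 100) := by decide +kernel

theorem check_nD_L : nD 90 (-90) L90 * 10 ^ 4 ≤ 4177 * (12 * 8 ^ 90 * 2 ^ 100) := by decide +kernel

theorem check_nD_Lr : nD 90 (-90) L90.reverse * 10 ^ 4 ≤ 4177 * (12 * 8 ^ 90 * 2 ^ 100) := by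
  decide +kernel

theorem check_nI_Lr : nI 90 (-90) L90.reverse * 10 ^ 3 ≤ 300 * (12 * 8 ^ 90 * 2 ^ 100) := by
  decide +kernel

theorem check_nI_dL : nI 90 (-90) (dk (-90) L90) * 10 ^ 4 ≤ 4177 * (12 * 8 ^ 90 * 2 ^ 100) := by
  decide +kernel

theorem check_len_L : L90.length = 181 := by decide +kernel

theorem check_len_Q : Qt.length = 90 := by decide +kernel

theorem check_nI_CG : nI 16 (-16) CG * 100 ≤ 1366 * (12 * 8 ^ 16 * 2 ^ 30) := by decide +kernel

theorem check_nI_C1 : nI 16 (-16) C1 * 100 ≤ 5217 * (12 * 8 ^ 16 * 2 ^ 30) := by decide +kernel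

theorem check_len_C1 : C1.length = 33 := by decide +kernel

end Pool.Agent.H30KAM
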