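import Pool.Agent.H30KAM.CheckA

/-!
Kernel checks, part B.
-/

set_option autoImplicit false

namespace Pool.Agent.H30KAM

theorem check_E90 : nI 180 (-180) E90 * 10 ^ 24 ≤ 133 * (12 * 8 ^ 180 * 2 ^ 200) := by
  decide +kernel

end Pool.Agent.H30KAM
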