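import Pool.Agent.H30KAM.CheckA

/-!
Kernel checks, part C.
-/

set_option autoImplicit false

namespace Pool.Agent.H30KAM

/-- coefficients of `1 - CG * (2 G)` -/
def Rl1 : List (ℤ × ℤ) :=
  ladd (List.replicate 106 (0, 0) ++ [(2 ^ 130, 0)]) (lsmul (2, 0) (lmul CG L90.reverse))

/-- coefficients of `1 - C1 * f'` -/
def Rl2 : List (ℤ × ℤ) :=
  ladd (List.replicate 106 (0, 0) ++ [(2 ^ 130, 0)]) (lsmul (-1, 0) (lmul C1 (dk (-90) L90)))

/-- coefficients of the approximate inverse twist -/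
def Jl : List (ℤ × ℤ) :=
  lsmul (-2, 0) (lmul (lmul C1 (had R2 (-16) C1)) (had Rf (-90) L90.reverse))

theorem check_Rl1 : nI 106 (-106) Rl1 * 10 ^ 6 ≤ 8 * (12 * 8 ^ 106 * 2 ^ 130) := by
  decide +kernel

theorem check_Rl2 : nI 106 (-106) Rl2 * 10 ^ 5 ≤ 24 * (12 * 8 ^ 106 * 2 ^ 130) := by
  decide +kernel

theorem check_Jl : nI 122 (-122) Jl * 10 ≤ 2004 * (12 * 8 ^ 122 * 2 ^ 360) := by
  decide +kernel

theorem check_J0 : 1347 * 2 ^ 360 ≤ -100 * (Jl.getD 122 (0, 0)).1 := by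
  decide +kernel

theorem check_nD_C1 : nD 16 (-16) C1 ≤ 1000 * (12 * 8 ^ 16 * 2 ^ 30) := by
  decide +kernel

end Pool.Agent.H30KAM
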