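import Pool.Agent.H30KAM.Ops

/-!
The rotation number and its Diophantine property.
-/

set_option autoImplicit false

namespace Pool.Agent.H30KAM

noncomputable section

open Complex Real

/-- the inverse of the rotation number -/
def Xr : ℝ := 50 + (√5 - 1) / 2

/-- the rotation number -/
def th : ℝ := 1 / Xr

theorem sqrt5_lt : √5 < 9 / 4 := by
  rw [Real.sqrt_lt' (by norm_num)]
  norm_num

theorem lt_sqrt5 : 2 < √5 := by
  rw [Real.lt_sqrt (by norm_num)]
  norm_num

theorem Xr_pos : 0 < Xr := by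
  unfold Xr
  linarith [lt_sqrt5]

theorem Xr_lt : Xr < 51 := by
  unfold Xr
  linarith [sqrt5_lt]

theorem lt_Xr : 50 < Xr := by
  unfold Xr
  linarith [lt_sqrt5]

theorem norm_ek_sub_one (k : ℤ) (t : ℝ) : ‖ek k t - 1‖ = 2 * |Real.sin (π * (k * t))| := by
  have h := Complex.norm_exp_I_mul_ofReal_sub_one (2 * π * (k * t))
  have e1 : ek k t = Complex.exp (I * ((2 * π * (k * t) : ℝ) : ℂ)) := by
    unfold ek
    congr 1
    push_cast
    ring
  rw [e1, h]
  have e2 : 2 * π * (k * t) / 2 = π * (k * t) := by ring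
  rw [e2, norm_mul]
  simp

theorem norm_ek_sub_one_ge (k m : ℤ) (t : ℝ) (h : |k * t - m| ≤ 1 / 2) :
    4 * |k * t - m| ≤ ‖ek k t - 1‖ := by
  rw [norm_ek_sub_one]
  have hpi := Real.pi_pos
  have h1 : |Real.sin (π * (k * t))| = |Real.sin (π * (k * t - m))| := by
    have e : π * (k * t - m) = π * (k * t) - m * π := by ring
    rw [e, Real.sin_sub_int_mul_pi, abs_mul, abs_zpow]
    simp
  rw [h1]
  have h2 : |π * (k * t - m)| ≤ π / 2 := by
    rw [abs_mul, abs_of_pos hpi]
    nlinarith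
  have h3 := Real.mul_abs_le_abs_sin h2
  rw [abs_mul, abs_of_pos hpi] at h3
  have h4 : 2 / π * (π * |k * t - m|) = 2 * |k * t - m| := by
    field_simp
  rw [h4] at h3
  linarith

theorem int_ne (a m : ℤ) (hm : m ≠ 0) : a ^ 2 + a * m - m ^ 2 ≠ 0 := by
  intro h
  have h1 : (2 * a + m) * (2 * a + m) = 5 * (m * m) := by linarith
  have h2 : Prime (5 : ℤ) := by norm_num
  -- irrationality of the square root of five
  have h3 : Irrational (√5) := by
    have := Nat.Prime.irrational_sqrt (show Nat.Prime 5 by norm_num)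
    simpa using this
  apply h3
  refine ⟨|((2 * a + m : ℤ) : ℚ) / (m : ℚ)|, ?_⟩
  push_cast
  have hm' : (m : ℝ) ≠ 0 := by exact_mod_cast hm
  symm
  rw [Real.sqrt_eq_iff_mul_self_eq_of_pos]
  · rw [← abs_mul, abs_of_nonneg (mul_self_nonneg _), div_mul_div_comm, div_eq_iff (by positivity)]
    have h5 : (((2 * a + m) * (2 * a + m) : ℤ) : ℝ) = ((5 * (m * m) : ℤ) : ℝ) := by rw [h1]
    push_cast at h5
    exact h5
  · rw [abs_pos]
    apply div_ne_zero _ hm'
    intro h4
    have h5 : (2 * a + m : ℤ) = 0 := by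
      have h6 : ((2 * a + m : ℤ) : ℝ) = 0 := by
        push_cast
        exact h4
      exact Int.cast_eq_zero.1 h6
    rw [h5] at h1
    have h6 : m * m = 0 := by linarith
    exact hm (mul_self_eq_zero.1 h6)

theorem dio_th {A B : ℝ} (hA : 102 ≤ A) (hB : 9 / 4 ≤ B) (hAB : B ≤ 100) : Dio th A B := by
  intro k hk
  set m : ℤ := round (k * th) with hm
  have h1 : |k * th - m| ≤ 1 / 2 := abs_sub_round _
  have h2 := norm_ek_sub_one_ge k m th h1
  have hX := Xr_pos
  have hX1 := Xr_lt
  have hX2 := lt_Xr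
  have hA0 : 0 < A := by linarith
  have hB0 : 0 < B := by linarith
  have hk0 : 0 ≤ |(k : ℝ)| := abs_nonneg _
  set D : ℝ := k - m * Xr with hD
  have e1 : k * th - m = D / Xr := by
    rw [hD]
    unfold th
    field_simp
  have e2 : |k * th - m| = |D| / Xr := by
    rw [e1, abs_div, abs_of_pos hX]
  have hpos : 0 < A + B * |(k : ℝ)| := by positivity
  suffices h : Xr ≤ (A + B * |(k : ℝ)|) * |D| by
    calc (4 : ℝ) = 4 * (Xr / Xr) := by field_simp
      _ ≤ 4 * (((A + B * |(k : ℝ)|) * |D|) / Xr) := by gcongr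
      _ = (A + B * |(k : ℝ)|) * (4 * |k * th - m|) := by rw [e2]; ring
      _ ≤ _ := mul_le_mul_of_nonneg_left h2 hpos.le
  have hDn : 0 ≤ |D| := abs_nonneg _
  by_cases hD1 : 1 / 2 ≤ |D|
  · have h3 : A * (1 / 2) ≤ (A + B * |(k : ℝ)|) * |D| := by
      apply mul_le_mul _ hD1 (by norm_num) hpos.le
      have : 0 ≤ B * |(k : ℝ)| := by positivity
      linarith
    linarith
  · push Not at hD1
    have hm0 : m ≠ 0 := by
      intro h0
      rw [h0] at hD
      have h3 : D = k := by rw [hD]; simp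
      rw [h3] at hD1
      have h4 : (1 : ℝ) ≤ |(k : ℝ)| := by
        have := Int.one_le_abs hk
        exact_mod_cast this
      linarith
    set a : ℤ := k - 50 * m with ha
    have hs : √5 * √5 = 5 := Real.mul_self_sqrt (by norm_num)
    have e3 : D * (D + m * √5) = ((a ^ 2 + a * m - m ^ 2 : ℤ) : ℝ) := by
      rw [hD, ha]
      unfold Xr
      push_cast
      linear_combination (-(m : ℝ) ^ 2 / 4) * hs
    have e4 : 1 ≤ |D| * |D + m * √5| := by
      rw [← abs_mul, e3]
      have := Int.one_le_abs (int_ne a m hm0)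
      exact_mod_cast this
    have e5 : |D + m * √5| ≤ |D| + |(m : ℝ)| * √5 := by
      refine (abs_add_le _ _).trans ?_
      rw [abs_mul, abs_of_pos (show 0 < √5 by linarith [lt_sqrt5])]
    have e6 : |(m : ℝ)| * Xr ≤ |(k : ℝ)| + |D| := by
      have : (m : ℝ) * Xr = k - D := by rw [hD]; ring
      calc |(m : ℝ)| * Xr = |(m : ℝ) * Xr| := by rw [abs_mul, abs_of_pos hX]
        _ = |k - D| := by rw [this]
        _ ≤ _ := abs_sub _ _
    have e7 : Xr * (|D| + |(m : ℝ)| * √5) ≤ A + B * |(k : ℝ)| := by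
      have e8 : Xr * |D| ≤ 51 * (1 / 2) := by
        apply mul_le_mul hX1.le hD1.le hDn (by norm_num)
      have e9 : Xr * (|(m : ℝ)| * √5) ≤ B * (|(k : ℝ)| + |D|) := by
        calc Xr * (|(m : ℝ)| * √5) = √5 * (|(m : ℝ)| * Xr) := by ring
          _ ≤ B * (|(k : ℝ)| + |D|) := by
            apply mul_le_mul (by linarith [sqrt5_lt]) e6 (by positivity) hB0.le
      have e10 : B * |D| ≤ 100 * (1 / 2) := by
        apply mul_le_mul hAB hD1.le hDn (by norm_num)
      nlinarith
    calc Xr ≤ Xr * (|D| * |D + m * √5|) := by nlinarith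
      _ ≤ Xr * (|D| * (|D| + |(m : ℝ)| * √5)) := by gcongr
      _ = (Xr * (|D| + |(m : ℝ)| * √5)) * |D| := by ring
      _ ≤ _ := mul_le_mul_of_nonneg_right e7 hDn

theorem irrational_th : Irrational th := by
  unfold th
  rw [one_div, irrational_inv_iff]
  unfold Xr
  have h3 : Irrational (√5) := by
    have := Nat.Prime.irrational_sqrt (show Nat.Prime 5 by norm_num)
    simpa using this
  have h4 : Irrational ((√5 - (1 : ℤ)) / (2 : ℕ)) := by
    apply Irrational.div_natCast _ (by norm_num)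
    exact h3.sub_intCast 1
  have h5 := h4.natCast_add 50
  simpa using h5

end

end Pool.Agent.H30KAM
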