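import Pool.Agent.H30KAM.Ops

/-!
The error functions and the exactness identity.
-/

set_option autoImplicit false

namespace Pool.Agent.H30KAM

noncomputable section

open Complex Real

/-- first error -/
def er1 (s : ℝ) (f G : ℂ → ℂ) (z : ℂ) : ℂ := f (z + s) - f (z - s) - G z ^ 2

/-- second error -/
def er2 (s : ℝ) (f G : ℂ → ℂ) (z : ℂ) : ℂ := G (z + s) - G (z - s) - f z ^ 2

theorem er2_eq (s : ℝ) (f G : ℂ → ℂ) : er2 s f G = er1 s G f := rfl

theorem hasDerivAt_shift {F : ℂ → ℂ} {z : ℂ} {t : ℂ} (h : DifferentiableAt ℂ F (z + t)) :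
    HasDerivAt (fun w => F (w + t)) (deriv F (z + t)) z := by
  have h1 : HasDerivAt (fun w : ℂ => w + t) 1 z := (hasDerivAt_id z).add_const t
  have h2 : HasDerivAt F (deriv F (z + t)) (z + t) := h.hasDerivAt
  have h3 := h2.comp z h1
  rw [mul_one] at h3
  exact h3

theorem hasDerivAt_shift_sub {F : ℂ → ℂ} {z : ℂ} {t : ℂ} (h : DifferentiableAt ℂ F (z - t)) :
    HasDerivAt (fun w => F (w - t)) (deriv F (z - t)) z := by
  have := hasDerivAt_shift (F := F) (z := z) (t := -t) (by rwa [← sub_eq_add_neg])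
  simpa only [← sub_eq_add_neg] using this

theorem deriv_er1 {s μ M N : ℝ} {f G : ℂ → ℂ} (hf : W μ M f) (hG : W μ N G) {z : ℂ}
    (hz : z ∈ V μ) :
    deriv (er1 s f G) z = deriv f (z + s) - deriv f (z - s) - 2 * G z * deriv G z := by
  have h1 := hasDerivAt_shift (hf.differentiableAt (add_real_mem_V hz s))
  have h2 := hasDerivAt_shift_sub (hf.differentiableAt (sub_real_mem_V hz s))
  have h3 := (hG.differentiableAt hz).hasDerivAt.pow 2
  have h4 := (h1.sub h2).sub h3
  have h5 := h4.deriv
  unfold er1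
  refine Eq.trans ?_ (h5.trans ?_)
  · rfl
  · norm_num

theorem W.er1 {s μ M N : ℝ} (hμ : 0 ≤ μ) {f G : ℂ → ℂ} (hf : W μ M f) (hG : W μ N G) :
    W μ (M + M + N ^ 2) (er1 s f G) := by
  exact ((hf.shift s).sub (hf.shift_sub s)).sub (hG.pow hμ 2)

/-- summation by parts for the shift -/
theorem avg_shift_mul {μ M N : ℝ} (hμ : 0 < μ) {f G : ℂ → ℂ} (hf : W μ M f) (hG : W μ N G)
    (t : ℝ) : avg (fun z => f (z + t) * G z) = avg (fun z => f z * G (z - t)) := by
  have h1 : W μ (M * N) (fun z => f z * G (z - t)) := hf.mul hμ.le (hG.shift_sub t)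
  have h2 := avg_shift hμ h1 t
  rw [← h2]
  congr 1
  ext z
  congr 2
  ring

/-- integration by parts -/
theorem avg_by_parts {μ M N : ℝ} (hμ : 0 < μ) {f G : ℂ → ℂ} (hf : W μ M f) (hG : W μ N G) :
    avg (fun z => f z * deriv G z) = -avg (fun z => deriv f z * G z) := by
  have h1 := avg_deriv hμ (hf.mul hμ.le hG)
  have hν : 0 < μ - μ / 2 := by linarith
  have hle : μ - μ / 2 ≤ μ := by linarith
  have hp := hf.deriv (δ := μ / 2) (by linarith)
  have hq := hG.deriv (δ := μ / 2) (by linarith)
  have h2 : avg (deriv fun z => f z * G z) =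
      avg (fun z => deriv f z * G z + f z * deriv G z) := by
    apply avg_congr hμ
    intro z hz
    exact ((hf.differentiableAt hz).hasDerivAt.mul (hG.differentiableAt hz).hasDerivAt).deriv
  rw [h2, avg_add hν (hp.mul hν.le (hG.mono_strip hle)) ((hf.mono_strip hle).mul hν.le hq)] at h1
  linear_combination h1

/-- the exactness identity -/
theorem exactness {s μ M N : ℝ} (hμ : 0 < μ) {f G : ℂ → ℂ} (hf : W μ M f) (hG : W μ N G) :
    avg (fun z => er1 s f G z * deriv G z - er2 s f G z * deriv f z) = 0 := by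
  have hν : 0 < μ - μ / 2 := by linarith
  have hle : μ - μ / 2 ≤ μ := by linarith
  have hp := hf.deriv (δ := μ / 2) (by linarith)
  have hq := hG.deriv (δ := μ / 2) (by linarith)
  have hf' := hf.mono_strip hle
  have hG' := hG.mono_strip hle
  set ν := μ - μ / 2 with hνdef
  -- the four bilinear terms
  have a1 : avg (fun z => f (z + s) * deriv G z) = -avg (fun z => deriv f z * G (z - s)) := by
    have h1 := avg_by_parts hμ (hf.shift s) hG
    have h2 : avg (fun z => deriv (fun w => f (w + s)) z * G z) =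
        avg (fun z => deriv f (z + s) * G z) := by
      apply avg_congr hμ
      intro z hz
      rw [(hasDerivAt_shift (hf.differentiableAt (add_real_mem_V hz s))).deriv]
    rw [h1, h2, avg_shift_mul hν hp hG']
  have a2 : avg (fun z => f (z - s) * deriv G z) = -avg (fun z => deriv f z * G (z + s)) := by
    have h1 := avg_by_parts hμ (hf.shift_sub s) hG
    have h2 : avg (fun z => deriv (fun w => f (w - s)) z * G z) =
        avg (fun z => deriv f (z - s) * G z) := by
      apply avg_congr hμ
      intro z hz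
      rw [(hasDerivAt_shift_sub (hf.differentiableAt (sub_real_mem_V hz s))).deriv]
    rw [h1, h2]
    have h3 := avg_shift_mul hν hp hG' (-s)
    simpa only [ofReal_neg, ← sub_eq_add_neg, sub_neg_eq_add] using congrArg Neg.neg h3
  have cube : ∀ {F : ℂ → ℂ} {R : ℝ}, W μ R F → avg (fun z => F z ^ 2 * deriv F z) = 0 := by
    intro F R hF
    have h1 := avg_deriv hμ (hF.pow hμ.le 3)
    have h2 : avg (deriv fun z => F z ^ 3) = avg (fun z => 3 * (F z ^ 2 * deriv F z)) := by
      apply avg_congr hμ
      intro z hz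
      have h3 := ((hF.differentiableAt hz).hasDerivAt.pow 3).deriv
      refine Eq.trans ?_ (h3.trans ?_)
      · rfl
      · norm_num
        ring
    have hF' := hF.mono_strip hle
    have hFd := hF.deriv (δ := μ / 2) (by linarith)
    rw [h2, avg_smul hν 3 ((hF'.pow hν.le 2).mul hν.le hFd)] at h1
    have h4 : (3 : ℂ) ≠ 0 := by norm_num
    exact (mul_eq_zero.1 h1).resolve_left h4
  have a3 := cube hG
  have a4 := cube hf
  -- assemble
  have w1 := (hf'.shift s).mul hν.le hq
  have w2 := (hf'.shift_sub s).mul hν.le hq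
  have w3 := (hG'.pow hν.le 2).mul hν.le hq
  have w4 := hp.mul hν.le (hG'.shift s)
  have w5 := hp.mul hν.le (hG'.shift_sub s)
  have w6 := (hf'.pow hν.le 2).mul hν.le hp
  have e : (fun z => er1 s f G z * deriv G z - er2 s f G z * deriv f z) = fun z =>
      (((f (z + s) * deriv G z - f (z - s) * deriv G z) - G z ^ 2 * deriv G z) -
        ((deriv f z * G (z + s) - deriv f z * G (z - s)) - f z ^ 2 * deriv f z)) := by
    ext z
    unfold er1 er2
    ring
  rw [e, avg_sub hν ((w1.sub w2).sub w3) ((w4.sub w5).sub w6), avg_sub hν (w1.sub w2) w3,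
    avg_sub hν w1 w2, avg_sub hν (w4.sub w5) w6, avg_sub hν w4 w5, a1, a2, a3, a4]
  ring

end

end Pool.Agent.H30KAM
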