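import Pool.Agent.H30KAM.Base
import Pool.Agent.H30KAM.CheckB
import Pool.Agent.H30KAM.CheckC

/-!
The initial approximation.
-/

set_option autoImplicit false

namespace Pool.Agent.H30KAM

noncomputable section

open Complex Real

/-- the half rotation -/
def sh : ℝ := th / 2

/-- the scale -/
def cc : ℝ := 2 ^ 100

theorem cc_pos : 0 < cc := by unfold cc; positivity

/-- the initial approximation -/
def f0 (z : ℂ) : ℂ := tp (-90) L90 z / cc

def G0 (z : ℂ) : ℂ := -f0 (-z)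

theorem f0_neg (z : ℂ) : f0 (-z) = tp (-90) L90.reverse z / cc := by
  unfold f0
  rw [tp_reverse (-90) (-90) L90 (by rw [check_len_L]; norm_num)]

theorem ek_conj (k : ℤ) (t : ℝ) : ek (-k) t = (starRingEnd ℂ) (ek k t) := by
  unfold ek
  rw [← Complex.exp_conj]
  congr 1
  simp only [map_mul, Complex.conj_ofReal, Complex.conj_I, map_intCast, map_ofNat]
  push_cast
  ring

theorem Rf_spec (k : ℤ) (hk : k.natAbs ≤ 90) :
    ‖ek k (sh : ℂ) - gc (Rf k) / (cc : ℂ)‖ ≤ ηq * k.natAbs := by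
  have hu : ‖ek 1 (sh : ℂ)‖ = 1 := norm_ek_real 1 sh
  have h0 : ‖ek 1 (sh : ℂ) ^ 0 - gc (2 ^ 100, 0) / ((2 ^ 100 : ℝ) : ℂ)‖ ≤ ηq * (0 : ℕ) := by
    have : gc (2 ^ 100, 0) / ((2 ^ 100 : ℝ) : ℂ) = 1 := by
      unfold gc
      push_cast
      norm_num
    rw [this]
    simp
  have hs := chk_spec hu q1_close Qt (2 ^ 100, 0) 0 h0 check_chain
  have hlen : ∀ n : ℕ, n ≤ 90 → n < (((2 ^ 100, 0) :: Qt : List (ℤ × ℤ))).length := by
    intro n hn
    rw [List.length_cons, check_len_Q]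
    omega
  cases k with
  | ofNat n =>
    have hn : n ≤ 90 := hk
    have h1 := hs n (hlen n hn)
    rw [zero_add] at h1
    have e : ek (Int.ofNat n) (sh : ℂ) = ek 1 (sh : ℂ) ^ n := ek_nat n _
    rw [e]
    exact h1
  | negSucc n =>
    have hn : n + 1 ≤ 90 := hk
    have h1 := hs (n + 1) (hlen (n + 1) hn)
    rw [zero_add] at h1
    have e : ek (Int.negSucc n) (sh : ℂ) = (starRingEnd ℂ) (ek 1 (sh : ℂ) ^ (n + 1)) := by
      rw [← ek_nat, ← ek_conj]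
      rfl
    have e2 : gc (Rf (Int.negSucc n)) / (cc : ℂ) = (starRingEnd ℂ)
        (gc ((((2 ^ 100, 0) :: Qt : List (ℤ × ℤ))).getD (n + 1) (0, 0)) / ((2 ^ 100 : ℝ) : ℂ)) := by
      rw [map_div₀, Complex.conj_ofReal, ← gc_cj]
      rfl
    rw [e, e2, ← map_sub, RCLike.norm_conj]
    exact h1

theorem Rm_spec (k : ℤ) (hk : k.natAbs ≤ 90) :
    ‖ek k ((-sh : ℝ) : ℂ) - gc (Rm k) / (cc : ℂ)‖ ≤ ηq * k.natAbs := by
  have h := Rf_spec (-k) (by rwa [Int.natAbs_neg])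
  rw [Int.natAbs_neg] at h
  have e : ek k ((-sh : ℝ) : ℂ) = ek (-k) (sh : ℂ) := by
    rw [Complex.ofReal_neg, ek_neg]
  rw [e]
  exact h

theorem R2_spec (k : ℤ) (hk : k.natAbs ≤ 45) :
    ‖ek k ((2 * sh : ℝ) : ℂ) - gc (R2 k) / (cc : ℂ)‖ ≤ (2 * ηq) * k.natAbs := by
  have h := Rf_spec (2 * k) (by rw [Int.natAbs_mul]; simp; omega)
  have e : ek k ((2 * sh : ℝ) : ℂ) = ek (2 * k) (sh : ℂ) := by
    unfold ek
    congr 1
    push_cast
    ring
  rw [e]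
  refine h.trans (le_of_eq ?_)
  rw [Int.natAbs_mul]
  push_cast
  norm_num
  ring

/-- converting a check into a bound -/
theorem conv_check {n a d M e : ℕ} (hd : 0 < d) (h : n * d ≤ a * (12 * 8 ^ M * 2 ^ e)) {x : ℝ}
    (hx : (a : ℝ) / d ≤ x) : (n : ℝ) / (12 * 8 ^ M) / 2 ^ e ≤ x := by
  refine le_trans ?_ hx
  have h' : (n : ℝ) * d ≤ a * (12 * 8 ^ M * 2 ^ e) := by exact_mod_cast h
  have hd' : (0 : ℝ) < d := by exact_mod_cast hd
  rw [div_div, div_le_div_iff₀ (by positivity) hd']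
  exact h'

/-- the error of the shifted function -/
theorem shift_p : W m0 (ηq * ((nD 90 (-90) L90 : ℝ) / (12 * 8 ^ 90)))
    (fun z => tp (-90) L90 (z + (sh : ℝ)) - tp (-90) (had Rf (-90) L90) z / (cc : ℝ)) :=
  tp_shift 90 Rf_spec (-90) L90 (by norm_num) (by rw [check_len_L]; norm_num)

theorem shift_m : W m0 (ηq * ((nD 90 (-90) L90 : ℝ) / (12 * 8 ^ 90)))
    (fun z => tp (-90) L90 (z + (-sh : ℝ)) - tp (-90) (had Rm (-90) L90) z / (cc : ℝ)) :=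
  tp_shift 90 Rm_spec (-90) L90 (by norm_num) (by rw [check_len_L]; norm_num)

theorem shift_r : W m0 (ηq * ((nD 90 (-90) L90.reverse : ℝ) / (12 * 8 ^ 90)))
    (fun z => tp (-90) L90.reverse (z + (sh : ℝ)) -
      tp (-90) (had Rf (-90) L90.reverse) z / (cc : ℝ)) :=
  tp_shift 90 Rf_spec (-90) L90.reverse (by norm_num)
    (by rw [List.length_reverse, check_len_L]; norm_num)

theorem shift_2 : W m0 ((2 * ηq) * ((nD 16 (-16) C1 : ℝ) / (12 * 8 ^ 16)))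
    (fun z => tp (-16) C1 (z + (2 * sh : ℝ)) - tp (-16) (had R2 (-16) C1) z / (cc : ℝ)) :=
  tp_shift 16 (n := 45) (fun k hk => R2_spec k hk) (-16) C1 (by norm_num)
    (by rw [check_len_C1]; norm_num)

theorem norm_inv_cc : ‖(1 / (cc : ℂ))‖ = 1 / cc := by
  rw [norm_div, norm_one, Complex.norm_real, Real.norm_eq_abs, abs_of_pos cc_pos]

theorem gc_neg_one : gc (-1, 0) = -1 := by
  simp [gc]

theorem gc_two : gc (2, 0) = 2 := by
  simp [gc]

theorem gc_neg_two : gc (-2, 0) = -2 := by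
  simp [gc]

/-- the first error of the initial approximation -/
theorem er1_f0 : W m0 1e-21 (er1 sh f0 G0) := by
  have h1 := (tp_W 180 (-180) E90).smul (1 / (cc : ℂ) ^ 2)
  have h2 := (shift_p.sub shift_m).smul (1 / (cc : ℂ))
  have h3 := h1.add h2
  have hb : ‖(1 / (cc : ℂ) ^ 2)‖ * ((nI 180 (-180) E90 : ℝ) / (12 * 8 ^ 180)) +
      ‖(1 / (cc : ℂ))‖ * (ηq * ((nD 90 (-90) L90 : ℝ) / (12 * 8 ^ 90)) +
        ηq * ((nD 90 (-90) L90 : ℝ) / (12 * 8 ^ 90))) ≤ 1e-21 := by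
    have a1 : (nI 180 (-180) E90 : ℝ) / (12 * 8 ^ 180) / 2 ^ 200 ≤
        133 / 10 ^ 24 :=
      conv_check (by norm_num) check_E90 (by norm_num)
    have a2 : (nD 90 (-90) L90 : ℝ) / (12 * 8 ^ 90) / 2 ^ 100 ≤
        4177 / 10 ^ 4 :=
      conv_check (by norm_num) check_nD_L (by norm_num)
    have e1 : ‖(1 / (cc : ℂ) ^ 2)‖ = 1 / 2 ^ 200 := by
      rw [norm_div, norm_one, norm_pow, Complex.norm_real, Real.norm_eq_abs, abs_of_pos cc_pos]
      unfold cc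
      norm_num
    have e2 : ‖(1 / (cc : ℂ))‖ = 1 / 2 ^ 100 := norm_inv_cc
    rw [e1, e2]
    have e3 : 1 / 2 ^ 200 * ((nI 180 (-180) E90 : ℝ) / (12 * 8 ^ 180)) +
      1 / 2 ^ 100 * (ηq * ((nD 90 (-90) L90 : ℝ) / (12 * 8 ^ 90)) +
        ηq * ((nD 90 (-90) L90 : ℝ) / (12 * 8 ^ 90))) =
        (nI 180 (-180) E90 : ℝ) / (12 * 8 ^ 180) / 2 ^ 200 +
        2 * ηq * ((nD 90 (-90) L90 : ℝ) / (12 * 8 ^ 90) / 2 ^ 100) := by ring
    rw [e3]
    have h5 : 2 * ηq * ((nD 90 (-90) L90 : ℝ) / (12 * 8 ^ 90) / 2 ^ 100) ≤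
        2 * ηq * (4177 / 10 ^ 4) := mul_le_mul_of_nonneg_left a2 (by unfold ηq; norm_num)
    refine (add_le_add a1 h5).trans ?_
    unfold ηq
    norm_num
  apply (h3.mono hb).congr
  intro z _
  unfold er1 G0
  rw [f0_neg]
  unfold f0
  have e1 : z + ((-sh : ℝ) : ℂ) = z - (sh : ℂ) := by push_cast; ring
  have e2 : tp (-180) E90 z = tp (-90) (had Rf (-90) L90) z - tp (-90) (had Rm (-90) L90) z -
      tp (-90) L90.reverse z * tp (-90) L90.reverse z := by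
    unfold E90
    rw [tp_ladd, tp_pad, tp_lsmul]
    have e3 : (-180 : ℤ) + (90 : ℕ) = -90 := by norm_num
    have e4 : (-180 : ℤ) = -90 + -90 := by norm_num
    rw [e3, tp_ladd, tp_lsmul, gc_neg_one, e4, tp_lmul]
    ring
  rw [e1, e2]
  have hc : (cc : ℂ) ≠ 0 := by exact_mod_cast cc_pos.ne'
  field_simp
  ring

theorem er2_f0_eq (z : ℂ) : er2 sh f0 G0 z = er1 sh f0 G0 (-z) := by
  unfold er2 er1 G0
  have e1 : -(z + (sh : ℂ)) = -z - sh := by ring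
  have e2 : -(z - (sh : ℂ)) = -z + sh := by ring
  rw [e1, e2, neg_neg]
  ring

theorem er2_f0 : W m0 1e-21 (er2 sh f0 G0) := by
  apply er1_f0.refl.congr
  intro z _
  exact (er2_f0_eq z).symm

theorem f0_W : W m0 0.3 f0 := by
  have h1 := (tp_W 90 (-90) L90).smul (1 / (cc : ℂ))
  have a1 : (nI 90 (-90) L90 : ℝ) / (12 * 8 ^ 90) / 2 ^ 100 ≤
        300 / 10 ^ 3 :=
      conv_check (by norm_num) check_nI_L (by norm_num)
  have h2 : ‖(1 / (cc : ℂ))‖ * ((nI 90 (-90) L90 : ℝ) / (12 * 8 ^ 90)) ≤ 0.3 := by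
    rw [norm_inv_cc]
    unfold cc
    calc 1 / 2 ^ 100 * ((nI 90 (-90) L90 : ℝ) / (12 * 8 ^ 90)) =
        (nI 90 (-90) L90 : ℝ) / (12 * 8 ^ 90) / 2 ^ 100 := by ring
      _ ≤ _ := a1
      _ = _ := by norm_num
  apply (h1.mono h2).congr
  intro z _
  unfold f0
  ring

theorem G0_W : W m0 0.3 G0 := by
  apply f0_W.refl.neg.congr
  intro z _
  rfl

theorem deriv_f0 (z : ℂ) : deriv f0 z = 2 * π * tp (-90) (dk (-90) L90) z / cc := by
  have h := (tp_deriv (-90) L90 z).div_const (cc : ℂ)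
  exact h.deriv

theorem norm_two_pi : ‖(2 * π : ℂ)‖ = 2 * π := by
  rw [norm_mul, Complex.norm_real, Real.norm_eq_abs, abs_of_pos Real.pi_pos]
  simp

theorem p0_W : W m0 2.63 (deriv f0) := by
  have h1 := (tp_W 90 (-90) (dk (-90) L90)).smul (2 * π * (1 / (cc : ℂ)))
  have a1 : (nI 90 (-90) (dk (-90) L90) : ℝ) / (12 * 8 ^ 90) / 2 ^ 100 ≤
        4177 / 10 ^ 4 :=
      conv_check (by norm_num) check_nI_dL (by norm_num)
  have h2 : ‖(2 * π * (1 / (cc : ℂ)))‖ * ((nI 90 (-90) (dk (-90) L90) : ℝ) / (12 * 8 ^ 90)) ≤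
      2.63 := by
    rw [norm_mul, norm_inv_cc, norm_two_pi]
    unfold cc
    have h3 := Real.pi_lt_d4
    have h4 := Real.pi_pos
    calc 2 * π * (1 / 2 ^ 100) * ((nI 90 (-90) (dk (-90) L90) : ℝ) / (12 * 8 ^ 90)) =
        2 * π * ((nI 90 (-90) (dk (-90) L90) : ℝ) / (12 * 8 ^ 90) / 2 ^ 100) := by ring
      _ ≤ 2 * π * (4177 / 10 ^ 4) := mul_le_mul_of_nonneg_left a1 (by positivity)
      _ ≤ 2.63 := by norm_num at h3 ⊢; linarith
  apply (h1.mono h2).congr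
  intro z _
  rw [deriv_f0]
  ring

/-- the approximate inverse of `2 G` -/
def CGf (z : ℂ) : ℂ := tp (-16) CG z / 2 ^ 30

/-- the approximate inverse of the derivative -/
def Cpf (z : ℂ) : ℂ := tp (-16) C1 z / (2 ^ 30 * (2 * π))

theorem norm_inv_two_pow (n : ℕ) : ‖(1 / 2 ^ n : ℂ)‖ = 1 / 2 ^ n := by
  rw [norm_div, norm_one, norm_pow]
  simp

theorem CGf_W : W m0 13.66 CGf := by
  have h1 := (tp_W 16 (-16) CG).smul (1 / 2 ^ 30)
  have a1 : (nI 16 (-16) CG : ℝ) / (12 * 8 ^ 16) / 2 ^ 30 ≤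
        1366 / 100 :=
      conv_check (by norm_num) check_nI_CG (by norm_num)
  have h2 : ‖(1 / 2 ^ 30 : ℂ)‖ * ((nI 16 (-16) CG : ℝ) / (12 * 8 ^ 16)) ≤ 13.66 := by
    rw [norm_inv_two_pow]
    calc 1 / 2 ^ 30 * ((nI 16 (-16) CG : ℝ) / (12 * 8 ^ 16)) =
        (nI 16 (-16) CG : ℝ) / (12 * 8 ^ 16) / 2 ^ 30 := by ring
      _ ≤ _ := a1
      _ = _ := by norm_num
  apply (h1.mono h2).congr
  intro z _
  unfold CGf
  ring

theorem Cpf_W : W m0 8.31 Cpf := by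
  have h1 := (tp_W 16 (-16) C1).smul (1 / 2 ^ 30 * (1 / (2 * π)))
  have a1 : (nI 16 (-16) C1 : ℝ) / (12 * 8 ^ 16) / 2 ^ 30 ≤
        5217 / 100 :=
      conv_check (by norm_num) check_nI_C1 (by norm_num)
  have h2 : ‖(1 / 2 ^ 30 * (1 / (2 * π)) : ℂ)‖ * ((nI 16 (-16) C1 : ℝ) / (12 * 8 ^ 16)) ≤
      8.31 := by
    rw [norm_mul, norm_inv_two_pow, norm_div, norm_one, norm_two_pi]
    have h3 := Real.pi_gt_d2
    have h4 := Real.pi_pos
    calc 1 / 2 ^ 30 * (1 / (2 * π)) * ((nI 16 (-16) C1 : ℝ) / (12 * 8 ^ 16)) =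
        ((nI 16 (-16) C1 : ℝ) / (12 * 8 ^ 16) / 2 ^ 30) / (2 * π) := by ring
      _ ≤ (5217 / 100) / (2 * π) := div_le_div_of_nonneg_right a1 (by positivity)
      _ ≤ 8.31 := by
        rw [div_le_iff₀ (by positivity)]
        norm_num at h3 ⊢
        linarith
  apply (h1.mono h2).congr
  intro z _
  unfold Cpf
  ring

theorem tp_one_pad (z : ℂ) :
    tp (-106) (List.replicate 106 (0, 0) ++ [(2 ^ 130, 0)]) z = 2 ^ 130 := by
  rw [tp_pad]
  have e : (-106 : ℤ) + (106 : ℕ) = 0 := by norm_num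
  rw [e, tp_cons, tp_nil, ek_zero]
  unfold gc
  push_cast
  ring

theorem r1_W : W m0 8e-6 (fun z => 1 - CGf z * (2 * G0 z)) := by
  have h1 := (tp_W 106 (-106) Rl1).smul (1 / 2 ^ 130)
  have a1 : (nI 106 (-106) Rl1 : ℝ) / (12 * 8 ^ 106) / 2 ^ 130 ≤
        8 / 10 ^ 6 :=
      conv_check (by norm_num) check_Rl1 (by norm_num)
  have h2 : ‖(1 / 2 ^ 130 : ℂ)‖ * ((nI 106 (-106) Rl1 : ℝ) / (12 * 8 ^ 106)) ≤ 8e-6 := by
    rw [norm_inv_two_pow]
    calc 1 / 2 ^ 130 * ((nI 106 (-106) Rl1 : ℝ) / (12 * 8 ^ 106)) =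
        (nI 106 (-106) Rl1 : ℝ) / (12 * 8 ^ 106) / 2 ^ 130 := by ring
      _ ≤ _ := a1
      _ = _ := by norm_num
  apply (h1.mono h2).congr
  intro z _
  unfold Rl1 CGf G0
  have e4 : (-106 : ℤ) = -16 + -90 := by norm_num
  rw [tp_ladd, tp_one_pad, tp_lsmul, f0_neg, gc_two, e4, tp_lmul]
  have hc : (cc : ℂ) = 2 ^ 100 := by
    unfold cc
    push_cast
    rfl
  rw [hc]
  ring

theorem r2_W : W m0 2.4e-4 (fun z => 1 - Cpf z * deriv f0 z) := by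
  have h1 := (tp_W 106 (-106) Rl2).smul (1 / 2 ^ 130)
  have a1 : (nI 106 (-106) Rl2 : ℝ) / (12 * 8 ^ 106) / 2 ^ 130 ≤
        24 / 10 ^ 5 :=
      conv_check (by norm_num) check_Rl2 (by norm_num)
  have h2 : ‖(1 / 2 ^ 130 : ℂ)‖ * ((nI 106 (-106) Rl2 : ℝ) / (12 * 8 ^ 106)) ≤ 2.4e-4 := by
    rw [norm_inv_two_pow]
    calc 1 / 2 ^ 130 * ((nI 106 (-106) Rl2 : ℝ) / (12 * 8 ^ 106)) =
        (nI 106 (-106) Rl2 : ℝ) / (12 * 8 ^ 106) / 2 ^ 130 := by ring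
      _ ≤ _ := a1
      _ = _ := by norm_num
  apply (h1.mono h2).congr
  intro z _
  unfold Rl2 Cpf
  have e4 : (-106 : ℤ) = -16 + -90 := by norm_num
  rw [tp_ladd, tp_one_pad, tp_lsmul, deriv_f0, gc_neg_one, e4, tp_lmul]
  have hc : (cc : ℂ) = 2 ^ 100 := by
    unfold cc
    push_cast
    rfl
  rw [hc]
  have hpi : (π : ℂ) ≠ 0 := by exact_mod_cast Real.pi_ne_zero
  field_simp
  ring

/-- the main part of the inverse twist -/
def Jm (z : ℂ) : ℂ := tp (-122) Jl z / (2 ^ 360 * (2 * π) ^ 2)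

theorem J_close : W m0 1e-9 (fun z => 2 * G0 (z + sh) * (Cpf z * Cpf (z + (2 * sh : ℝ))) -
    Jm z) := by
  have hm := m0_pos.le
  -- the shift of G
  have s1 := shift_r.smul (-1 / (cc : ℂ))
  have b1 : ‖(-1 / (cc : ℂ))‖ * (ηq * ((nD 90 (-90) L90.reverse : ℝ) / (12 * 8 ^ 90))) ≤
      1e-20 := by
    have a2 : (nD 90 (-90) L90.reverse : ℝ) / (12 * 8 ^ 90) / 2 ^ 100 ≤
        4177 / 10 ^ 4 :=
      conv_check (by norm_num) check_nD_Lr (by norm_num)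
    have e : ‖(-1 / (cc : ℂ))‖ = 1 / 2 ^ 100 := by
      rw [neg_div, norm_neg]
      exact norm_inv_cc
    rw [e]
    calc 1 / 2 ^ 100 * (ηq * ((nD 90 (-90) L90.reverse : ℝ) / (12 * 8 ^ 90)))
        = ηq * ((nD 90 (-90) L90.reverse : ℝ) / (12 * 8 ^ 90) / 2 ^ 100) := by ring
      _ ≤ ηq * (4177 / 10 ^ 4) := mul_le_mul_of_nonneg_left a2 (by unfold ηq; norm_num)
      _ ≤ _ := by unfold ηq; norm_num
  have t1 := s1.mono b1
  -- the shift of the inverse derivative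
  have s2 := shift_2.smul (1 / 2 ^ 30 * (1 / (2 * π)))
  have b2 : ‖(1 / 2 ^ 30 * (1 / (2 * π)) : ℂ)‖ *
      ((2 * ηq) * ((nD 16 (-16) C1 : ℝ) / (12 * 8 ^ 16))) ≤ 1e-18 := by
    rw [norm_mul, norm_inv_two_pow, norm_div, norm_one, norm_two_pi]
    have h3 := Real.pi_gt_d2
    have h4 := Real.pi_pos
    have a2 : (nD 16 (-16) C1 : ℝ) / (12 * 8 ^ 16) / 2 ^ 30 ≤
        1000 / 1 :=
      conv_check (d := 1) (by norm_num) (by rw [mul_one]; exact check_nD_C1) (by norm_num)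
    have h5 : 1 / (2 * π) ≤ 1 := by
      rw [div_le_one (by positivity)]
      linarith
    calc 1 / 2 ^ 30 * (1 / (2 * π)) * ((2 * ηq) * ((nD 16 (-16) C1 : ℝ) / (12 * 8 ^ 16))) =
        (1 / (2 * π)) * ((2 * ηq) * ((nD 16 (-16) C1 : ℝ) / (12 * 8 ^ 16) / 2 ^ 30)) := by ring
      _ ≤ 1 * ((2 * ηq) * (1000 / 1)) := by
          apply mul_le_mul h5 _ _ (by norm_num)
          · apply mul_le_mul_of_nonneg_left a2
            unfold ηq
            norm_num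
          · unfold ηq
            positivity
      _ ≤ 1e-18 := by unfold ηq; norm_num
  have t2 := s2.mono b2
  -- assemble
  have hG := G0_W.shift sh
  have hC := Cpf_W
  have hC2 := Cpf_W.shift (2 * sh)
  have u1 := ((t1.mul hm (hC.mul hm hC2)).smul 2)
  have u2 := (((hG.sub t1).mul hm (hC.mul hm t2)).smul 2)
  have u3 := u1.add u2
  have b3 : ‖(2 : ℂ)‖ * (1e-20 * (8.31 * 8.31)) + ‖(2 : ℂ)‖ * ((0.3 + 1e-20) * (8.31 * 1e-18)) ≤
      (1e-9 : ℝ) := by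
    norm_num
  apply (u3.mono b3).congr
  intro z _
  have hpi : (π : ℂ) ≠ 0 := by exact_mod_cast Real.pi_ne_zero
  have hc : (cc : ℂ) = 2 ^ 100 := by
    unfold cc
    push_cast
    rfl
  have e1 : tp (-122) Jl z = -2 * (tp (-16) C1 z * tp (-16) (had R2 (-16) C1) z *
      tp (-90) (had Rf (-90) L90.reverse) z) := by
    unfold Jl
    have e4 : (-122 : ℤ) = (-16 + -16) + -90 := by norm_num
    rw [tp_lsmul, gc_neg_two, e4, tp_lmul, tp_lmul]
  have e2 : G0 (z + sh) = -tp (-90) L90.reverse (z + (sh : ℝ)) / cc := by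
    unfold G0
    rw [f0_neg]
    ring
  unfold Jm
  rw [e1, e2]
  unfold Cpf
  rw [hc]
  generalize tp (-90) L90.reverse (z + (sh : ℝ)) = X1
  generalize tp (-16) C1 (z + (2 * sh : ℝ)) = X2
  generalize tp (-16) C1 z = X3
  generalize tp (-90) (had Rf (-90) L90.reverse) z = X4
  generalize tp (-16) (had R2 (-16) C1) z = X5
  field_simp
  ring

theorem norm_two_pi_sq : ‖((2 * π) ^ 2 : ℂ)‖ = (2 * π) ^ 2 := by
  rw [norm_pow, norm_two_pi]

theorem Jm_W : W m0 5.085 Jm := by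
  have h1 := (tp_W 122 (-122) Jl).smul (1 / 2 ^ 360 * (1 / (2 * π) ^ 2))
  have a1 : (nI 122 (-122) Jl : ℝ) / (12 * 8 ^ 122) / 2 ^ 360 ≤
        2004 / 10 :=
      conv_check (by norm_num) check_Jl (by norm_num)
  have h2 : ‖(1 / 2 ^ 360 * (1 / (2 * π) ^ 2) : ℂ)‖ * ((nI 122 (-122) Jl : ℝ) / (12 * 8 ^ 122)) ≤
      5.085 := by
    rw [norm_mul, norm_inv_two_pow, norm_div, norm_one, norm_two_pi_sq]
    have h3 := Real.pi_gt_d2
    have h4 := Real.pi_pos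
    calc 1 / 2 ^ 360 * (1 / (2 * π) ^ 2) * ((nI 122 (-122) Jl : ℝ) / (12 * 8 ^ 122)) =
        ((nI 122 (-122) Jl : ℝ) / (12 * 8 ^ 122) / 2 ^ 360) / (2 * π) ^ 2 := by ring
      _ ≤ (2004 / 10) / (2 * π) ^ 2 := div_le_div_of_nonneg_right a1 (by positivity)
      _ ≤ 5.085 := by
        rw [div_le_iff₀ (by positivity)]
        norm_num at h3 ⊢
        nlinarith
  apply (h1.mono h2).congr
  intro z _
  unfold Jm
  ring

theorem Jm_avg : 0.34115 ≤ ‖avg Jm‖ := by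
  have e1 : Jm = fun z => (1 / (2 ^ 360 * (2 * π) ^ 2)) * tp (-122) Jl z := by
    funext z
    unfold Jm
    ring
  have h0 : avg (tp (-122) Jl) = gc (Jl.getD 122 (0, 0)) := avg_tp 122 Jl
  rw [e1, avg_smul m0_pos _ (tp_W 122 (-122) Jl), h0]
  have h1 : (1347 : ℝ) * 2 ^ 360 ≤ -100 * ((Jl.getD 122 (0, 0)).1 : ℝ) := by
    have := check_J0
    exact_mod_cast this
  have h2 : (1347 : ℝ) / 100 * 2 ^ 360 ≤ ‖gc (Jl.getD 122 (0, 0))‖ := by
    have h3 : |(gc (Jl.getD 122 (0, 0))).re| ≤ ‖gc (Jl.getD 122 (0, 0))‖ :=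
      Complex.abs_re_le_norm _
    have h4 : (gc (Jl.getD 122 (0, 0))).re = ((Jl.getD 122 (0, 0)).1 : ℝ) := by
      unfold gc
      simp
    rw [h4] at h3
    have h5 := neg_le_abs ((Jl.getD 122 (0, 0)).1 : ℝ)
    linarith
  have h3 := Real.pi_lt_d4
  have h4 := Real.pi_pos
  rw [norm_mul, norm_div, norm_one, norm_mul, norm_two_pi_sq]
  have e2 : ‖(2 ^ 360 : ℂ)‖ = 2 ^ 360 := by
    rw [norm_pow]
    simp
  rw [e2]
  calc (0.34115 : ℝ) ≤ 1347 / 100 / (2 * π) ^ 2 := by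
        rw [le_div_iff₀ (by positivity)]
        norm_num at h3 ⊢
        nlinarith
    _ = 1 / (2 ^ 360 * (2 * π) ^ 2) * (1347 / 100 * 2 ^ 360) := by
        field_simp
    _ ≤ _ := mul_le_mul_of_nonneg_left h2 (by positivity)

theorem J_W : W m0 5.09 (fun z => 2 * G0 (z + sh) * (Cpf z * Cpf (z + (2 * sh : ℝ)))) := by
  apply ((Jm_W.add J_close).mono (by norm_num)).congr
  intro z _
  ring

theorem J_avg : 0.341 ≤ ‖avg (fun z => 2 * G0 (z + sh) * (Cpf z * Cpf (z + (2 * sh : ℝ))))‖ := by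
  have h1 := J_close.norm_avg_le m0_pos
  rw [avg_sub m0_pos J_W Jm_W] at h1
  have h2 := Jm_avg
  have h3 := norm_sub_norm_le (avg Jm)
    (avg (fun z => 2 * G0 (z + sh) * (Cpf z * Cpf (z + (2 * sh : ℝ)))))
  rw [norm_sub_rev] at h3
  norm_num at h1 h2 h3 ⊢
  linarith

theorem nice0 : ∀ μ f G, 0 < μ → μ ≤ m0 → (∃ R, W μ R f) → (∃ R, W μ R G) →
    W μ 1e-6 (fun z => deriv f z - deriv f0 z) → W μ 1e-6 (fun z => G z - G0 z) →
    Nice sh μ 2.64 8.32 13.7 5.12 3.13 f G := by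
  apply nice_of_close (P₀ := 2.63) (β := 13.66) (γ := 8.31) (r₁ := 8e-6) (r₂ := 2.4e-4)
    (g₀ := 0.3) (N₀ := 5.09) (τ := 0.341) (ρ := 0.021) p0_W CGf_W r1_W Cpf_W r2_W G0_W J_W J_avg
  all_goals norm_num

end

end Pool.Agent.H30KAM
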