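import Pool.Agent.H30KAM.Step

/-!
The Newton iteration.
-/

set_option autoImplicit false

namespace Pool.Agent.H30KAM

noncomputable section

open Complex Real

/-- constant of the second error -/
def E2 (P Pm Γ N T S D : ℝ) : ℝ :=
  (D * Γ) * Pm + Cv P Γ N T S * (D + (D * Γ + D * Γ)) + Cu P Γ N T S ^ 2

section

variable {s A B μ₀ δ₀ P Pm Γ N T ε η : ℝ} {f₀ G₀ : ℂ → ℂ}

/-- width of the strip at stage `t = 2 ^ n` -/
def mu (μ₀ δ₀ t : ℝ) : ℝ := μ₀ - 6 * δ₀ * (1 - 1 / t)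

/-- the invariant of the iteration at stage `t = 2 ^ n` -/
structure Inv (s μ₀ δ₀ ε η : ℝ) (f₀ G₀ : ℂ → ℂ) (t : ℝ) (f G : ℂ → ℂ) : Prop where
  f_W : ∃ R, W (mu μ₀ δ₀ t) R f
  G_W : ∃ R, W (mu μ₀ δ₀ t) R G
  p_cl : W (mu μ₀ δ₀ t) (η * (1 - 1 / t)) (fun z => deriv f z - deriv f₀ z)
  G_cl : W (mu μ₀ δ₀ t) (η * (1 - 1 / t)) (fun z => G z - G₀ z)
  e1 : W (mu μ₀ δ₀ t) (ε / t ^ 5) (er1 s f G)
  e2 : W (mu μ₀ δ₀ t) (ε / t ^ 5) (er2 s f G)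

/-- all numerical hypotheses -/
structure Hyp (s A B μ₀ δ₀ P Pm Γ N T ε η : ℝ) (f₀ G₀ : ℂ → ℂ) : Prop where
  hA : 0 ≤ A
  hB : 0 ≤ B
  dio : Dio (2 * s) A B
  hδ : 0 < δ₀
  hμ : 6 * δ₀ < μ₀
  hP : 0 ≤ P
  hPm : 0 ≤ Pm
  hΓ : 0 ≤ Γ
  hN : 0 ≤ N
  hT : 0 ≤ T
  hε : 0 < ε
  hη : 0 < η
  nice : ∀ μ f G, 0 < μ → μ ≤ μ₀ → (∃ R, W μ R f) → (∃ R, W μ R G) →
    W μ η (fun z => deriv f z - deriv f₀ z) → W μ η (fun z => G z - G₀ z) →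
    Nice s μ P Pm Γ N T f G
  c1 : 32 * (Cw P Γ N T (Sc A B δ₀)) ^ 2 * ε ≤ 1
  c2 : 32 * E2 P Pm Γ N T (Sc A B δ₀) (Dc δ₀) * ε ≤ 1
  c3 : 2 * (Dc δ₀ * Cu P Γ N T (Sc A B δ₀)) * ε ≤ η
  c4 : 2 * Cw P Γ N T (Sc A B δ₀) * ε ≤ η
  c5 : 2 * Cu P Γ N T (Sc A B δ₀) * ε ≤ η

theorem Sc_nonneg {A B δ : ℝ} (hA : 0 ≤ A) (hB : 0 ≤ B) (hδ : 0 < δ) : 0 ≤ Sc A B δ := by
  unfold Sc
  positivity

theorem Dc_nonneg {δ : ℝ} (hδ : 0 < δ) : 0 ≤ Dc δ := by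
  unfold Dc
  positivity

theorem Sc_div_le {A B δ t : ℝ} (hA : 0 ≤ A) (hδ : 0 < δ) (ht : 1 ≤ t) :
    Sc A B (δ / t) ≤ Sc A B δ * t := by
  unfold Sc
  have ht0 : 0 < t := by linarith
  have h1 : B / (Real.exp 1 * (δ / t)) = B / (Real.exp 1 * δ) * t := by
    field_simp
  rw [h1]
  have h2 : A * 1 ≤ A * t := mul_le_mul_of_nonneg_left ht hA
  nlinarith

theorem Dc_div {δ t : ℝ} (ht : 1 ≤ t) : Dc (δ / t) = Dc δ * t := by
  unfold Dc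
  have ht0 : t ≠ 0 := by linarith
  field_simp

theorem Cv_le {P Γ N T S S' : ℝ} (hP : 0 ≤ P) (hΓ : 0 ≤ Γ) (hN : 0 ≤ N) (hT : 0 ≤ T)
    (hS : 0 ≤ S') (h : S' ≤ S) : Cv P Γ N T S' ≤ Cv P Γ N T S := by
  unfold Cv
  have hS0 : 0 ≤ S := hS.trans h
  gcongr

theorem Cv_scale (P Γ N T S t : ℝ) : Cv P Γ N T (S * t) = Cv P Γ N T S * t ^ 2 := by
  unfold Cv
  ring

theorem Cv_nonneg {P Γ N T S : ℝ} (hP : 0 ≤ P) (hΓ : 0 ≤ Γ) (hN : 0 ≤ N) (hT : 0 ≤ T)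
    (hS : 0 ≤ S) : 0 ≤ Cv P Γ N T S := by
  unfold Cv
  positivity

theorem le_sq_of_one_le {t : ℝ} (ht : 1 ≤ t) : t ≤ t ^ 2 := by nlinarith

theorem le_cube_of_one_le {t : ℝ} (ht : 1 ≤ t) : t ≤ t ^ 3 := by
  have h1 : 1 ≤ t ^ 2 := one_le_pow₀ ht
  nlinarith

theorem num_half {t η c : ℝ} (ht : 1 ≤ t) (hη : 0 < η) (hc : 2 * c ≤ η) :
    c / t ^ 3 ≤ η / (2 * t) := by
  have ht0 : 0 < t := by linarith
  rw [div_le_div_iff₀ (by positivity) (by positivity)]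
  calc c * (2 * t) = (2 * c) * t := by ring
    _ ≤ η * t := mul_le_mul_of_nonneg_right hc ht0.le
    _ ≤ η * t ^ 3 := mul_le_mul_of_nonneg_left (le_cube_of_one_le ht) hη.le

theorem num_half2 {t η c : ℝ} (ht : 1 ≤ t) (hη : 0 < η) (hc : 2 * c ≤ η) :
    c / t ^ 2 ≤ η / (2 * t) := by
  have ht0 : 0 < t := by linarith
  rw [div_le_div_iff₀ (by positivity) (by positivity)]
  calc c * (2 * t) = (2 * c) * t := by ring
    _ ≤ η * t := mul_le_mul_of_nonneg_right hc ht0.le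
    _ ≤ η * t ^ 2 := mul_le_mul_of_nonneg_left (le_sq_of_one_le ht) hη.le

theorem num_eta {t η : ℝ} (ht : 1 ≤ t) :
    η * (1 - 1 / (2 * t)) = η * (1 - 1 / t) + η / (2 * t) := by
  have ht0 : t ≠ 0 := by linarith
  field_simp
  ring

theorem num_e1 {t c ε : ℝ} (ht : 1 ≤ t) (hε : 0 < ε) (c1 : 32 * c ^ 2 * ε ≤ 1) :
    (c * ε / t ^ 3) ^ 2 ≤ ε / (2 * t) ^ 5 := by
  have ht0 : 0 < t := by linarith
  rw [div_pow, div_le_div_iff₀ (by positivity) (by positivity)]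
  have h2 : 32 * c ^ 2 * ε * t ^ 5 ≤ 1 * t ^ 6 := by
    have h3 : t ^ 5 ≤ t ^ 6 := pow_le_pow_right₀ ht (by norm_num)
    apply mul_le_mul c1 h3 (by positivity) (by norm_num)
  calc (c * ε) ^ 2 * (2 * t) ^ 5
      = (32 * c ^ 2 * ε * t ^ 5) * ε := by ring
    _ ≤ (1 * t ^ 6) * ε := mul_le_mul_of_nonneg_right h2 hε.le
    _ = ε * (t ^ 3) ^ 2 := by ring

theorem num_e2 {t a b c D Γ Pm ε u : ℝ} (ht : 1 ≤ t) (hε : 0 < ε) (hD : 0 ≤ D) (hΓ : 0 ≤ Γ)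
    (hPm : 0 ≤ Pm) (ha : a ≤ b * ε / t ^ 3) (hb : 0 ≤ b) (hu0 : 0 ≤ u)
    (hu : u ≤ c * ε / t ^ 3)
    (c2 : 32 * ((D * Γ) * Pm + b * (D + (D * Γ + D * Γ)) + c ^ 2) * ε ≤ 1) :
    ε / t ^ 5 * (D * t * (ε / t ^ 5)) * Γ * Pm +
      a * (D * t * (ε / t ^ 5) + (D * t * (ε / t ^ 5) * Γ + D * t * (ε / t ^ 5) * Γ)) +
      u ^ 2 ≤ ε / (2 * t) ^ 5 := by
  have ht0 : 0 < t := by linarith
  have t4 : (1 : ℝ) ≤ t ^ 3 := one_le_pow₀ ht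
  have h1 : ε / t ^ 5 * (D * t * (ε / t ^ 5)) * Γ * Pm ≤ ((D * Γ) * Pm) * ε ^ 2 / t ^ 6 := by
    have e1 : ε / t ^ 5 * (D * t * (ε / t ^ 5)) * Γ * Pm =
        (((D * Γ) * Pm) * ε ^ 2 / t ^ 6) * (1 / t ^ 3) := by
      field_simp
    rw [e1]
    have e2 : 1 / t ^ 3 ≤ 1 := by
      rw [div_le_one (by positivity)]
      exact t4
    have e3 : 0 ≤ ((D * Γ) * Pm) * ε ^ 2 / t ^ 6 := by positivity
    calc _ ≤ (((D * Γ) * Pm) * ε ^ 2 / t ^ 6) * 1 := mul_le_mul_of_nonneg_left e2 e3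
      _ = _ := by ring
  have h2 : a * (D * t * (ε / t ^ 5) + (D * t * (ε / t ^ 5) * Γ + D * t * (ε / t ^ 5) * Γ)) ≤
      (b * (D + (D * Γ + D * Γ))) * ε ^ 2 / t ^ 6 := by
    have e0 : 0 ≤ D * t * (ε / t ^ 5) +
        (D * t * (ε / t ^ 5) * Γ + D * t * (ε / t ^ 5) * Γ) := by positivity
    refine (mul_le_mul_of_nonneg_right ha e0).trans ?_
    have e2 : b * ε / t ^ 3 * (D * t * (ε / t ^ 5) +
        (D * t * (ε / t ^ 5) * Γ + D * t * (ε / t ^ 5) * Γ)) =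
        ((b * (D + (D * Γ + D * Γ))) * ε ^ 2 / t ^ 6) * (1 / t) := by
      field_simp
    rw [e2]
    have e3 : 0 ≤ (b * (D + (D * Γ + D * Γ))) * ε ^ 2 / t ^ 6 := by
      positivity
    have e4 : 1 / t ≤ 1 := by
      rw [div_le_one ht0]
      exact ht
    calc _ ≤ ((b * (D + (D * Γ + D * Γ))) * ε ^ 2 / t ^ 6) * 1 :=
          mul_le_mul_of_nonneg_left e4 e3
      _ = _ := by ring
  have h3 : u ^ 2 ≤ c ^ 2 * ε ^ 2 / t ^ 6 := by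
    refine (pow_le_pow_left₀ hu0 hu 2).trans (le_of_eq ?_)
    field_simp
  have h4 : ((D * Γ) * Pm + b * (D + (D * Γ + D * Γ)) + c ^ 2) * ε ^ 2 / t ^ 6 ≤
      ε / (2 * t) ^ 5 := by
    rw [div_le_div_iff₀ (by positivity) (by positivity)]
    have e3 : t ^ 5 ≤ t ^ 6 := pow_le_pow_right₀ ht (by norm_num)
    have e4 : 32 * ((D * Γ) * Pm + b * (D + (D * Γ + D * Γ)) + c ^ 2) * ε * t ^ 5 ≤ 1 * t ^ 6 :=
      mul_le_mul c2 e3 (by positivity) (by norm_num)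
    calc ((D * Γ) * Pm + b * (D + (D * Γ + D * Γ)) + c ^ 2) * ε ^ 2 * (2 * t) ^ 5
        = (32 * ((D * Γ) * Pm + b * (D + (D * Γ + D * Γ)) + c ^ 2) * ε * t ^ 5) * ε := by ring
      _ ≤ (1 * t ^ 6) * ε := mul_le_mul_of_nonneg_right e4 hε.le
      _ = ε * t ^ 6 := by ring
  have h5 : ((D * Γ) * Pm) * ε ^ 2 / t ^ 6 + (b * (D + (D * Γ + D * Γ))) * ε ^ 2 / t ^ 6 +
      c ^ 2 * ε ^ 2 / t ^ 6 = ((D * Γ) * Pm + b * (D + (D * Γ + D * Γ)) + c ^ 2) * ε ^ 2 / t ^ 6 := by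
    ring
  linarith

theorem scaled {C C' ε t : ℝ} (ht : 1 ≤ t) (hε : 0 < ε) (h : C' ≤ C * t ^ 2) :
    C' * (ε / t ^ 5) ≤ C * ε / t ^ 3 := by
  have ht0 : 0 < t := by linarith
  have hεt : 0 < ε / t ^ 5 := by positivity
  calc C' * (ε / t ^ 5) ≤ (C * t ^ 2) * (ε / t ^ 5) := mul_le_mul_of_nonneg_right h hεt.le
    _ = _ := by field_simp

/-- one step of the iteration -/
theorem iter_step (h : Hyp s A B μ₀ δ₀ P Pm Γ N T ε η f₀ G₀)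
    {t : ℝ} (ht : 1 ≤ t) {f G : ℂ → ℂ}
    (hI : Inv s μ₀ δ₀ ε η f₀ G₀ t f G) :
    ∃ f' G', Inv s μ₀ δ₀ ε η f₀ G₀ (2 * t) f' G' ∧
      W (μ₀ - 6 * δ₀) (η / (2 * t)) (fun z => f' z - f z) ∧
      W (μ₀ - 6 * δ₀) (η / (2 * t)) (fun z => G' z - G z) := by
  obtain ⟨hA, hB, dio, hδ, hμ, hP, hPm, hΓ, hN, hT, hε, hη, nice, c1, c2, c3, c4, c5⟩ := h
  have ht0 : 0 < t := by linarith
  have hti : 0 < 1 / t := by positivity
  have hti1 : 1 / t ≤ 1 := by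
    rw [div_le_one ht0]
    exact ht
  set μ := mu μ₀ δ₀ t with hμdef
  have hμle : μ ≤ μ₀ := by
    rw [hμdef]
    unfold mu
    nlinarith
  have hμge : μ₀ - 6 * δ₀ + 6 * (δ₀ / t) = μ := by
    rw [hμdef]
    unfold mu
    ring
  have hδt : 0 < δ₀ / t := by positivity
  have hμpos : 0 < μ := by linarith
  have hηt : η * (1 - 1 / t) ≤ η := by nlinarith
  have hnice := nice μ f G hμpos hμle hI.f_W hI.G_W (hI.p_cl.mono hηt) (hI.G_cl.mono hηt)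
  obtain ⟨u, w, hu, hw, hn1, hn2⟩ := newton hA hB dio hδt (by linarith) hT hnice hI.e1 hI.e2
  set S := Sc A B δ₀ with hS
  have hS0 : 0 ≤ S := Sc_nonneg hA hB hδ
  have hSt0 : 0 ≤ Sc A B (δ₀ / t) := Sc_nonneg hA hB hδt
  have hSt : Sc A B (δ₀ / t) ≤ S * t := Sc_div_le hA hδ ht
  have hD0 : 0 ≤ Dc δ₀ := Dc_nonneg hδ
  rw [Dc_div ht] at hn2
  -- bounds of the constants
  have hCv : Cv P Γ N T (Sc A B (δ₀ / t)) ≤ Cv P Γ N T S * t ^ 2 := by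
    rw [← Cv_scale]
    exact Cv_le hP hΓ hN hT hSt0 hSt
  have hCv0 : 0 ≤ Cv P Γ N T S := Cv_nonneg hP hΓ hN hT hS0
  have hCvt0 : 0 ≤ Cv P Γ N T (Sc A B (δ₀ / t)) := Cv_nonneg hP hΓ hN hT hSt0
  have hCu : Cu P Γ N T (Sc A B (δ₀ / t)) ≤ Cu P Γ N T S * t ^ 2 := by
    unfold Cu
    rw [mul_assoc]
    exact mul_le_mul_of_nonneg_left hCv hP
  have hCu0 : 0 ≤ Cu P Γ N T S := mul_nonneg hP hCv0
  have hCut0 : 0 ≤ Cu P Γ N T (Sc A B (δ₀ / t)) := mul_nonneg hP hCvt0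
  have ht2 : 1 ≤ t ^ 2 := one_le_pow₀ ht
  have hCw : Cw P Γ N T (Sc A B (δ₀ / t)) ≤ Cw P Γ N T S * t ^ 2 := by
    unfold Cw
    have h1 : 2 * Cu P Γ N T (Sc A B (δ₀ / t)) + 1 ≤ (2 * Cu P Γ N T S + 1) * t ^ 2 := by
      have e1 : (2 * Cu P Γ N T S + 1) * t ^ 2 = 2 * (Cu P Γ N T S * t ^ 2) + t ^ 2 := by ring
      rw [e1]
      exact add_le_add (mul_le_mul_of_nonneg_left hCu (by norm_num)) ht2
    calc (2 * Cu P Γ N T (Sc A B (δ₀ / t)) + 1) * Γ ≤ ((2 * Cu P Γ N T S + 1) * t ^ 2) * Γ :=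
          mul_le_mul_of_nonneg_right h1 hΓ
      _ = _ := by ring
  have hCw0 : 0 ≤ Cw P Γ N T S := by unfold Cw; positivity
  have hCwt0 : 0 ≤ Cw P Γ N T (Sc A B (δ₀ / t)) := by unfold Cw; positivity
  have hεt : 0 < ε / t ^ 5 := by positivity
  -- sizes of the corrections
  have bu := scaled ht hε hCu
  have bw := scaled ht hε hCw
  have bv := scaled ht hε hCv
  have hu' := hu.mono bu
  have hw' := hw.mono bw
  have hu2 := hu'.mono (num_half ht hη (by rw [← mul_assoc]; exact c5))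
  have hw2 := hw'.mono (num_half ht hη (by rw [← mul_assoc]; exact c4))
  -- widths
  have hmu' : mu μ₀ δ₀ (2 * t) = μ - δ₀ / t - δ₀ / t - δ₀ / t := by
    rw [← hμge]
    unfold mu
    field_simp
    ring
  have hle : mu μ₀ δ₀ (2 * t) ≤ μ - δ₀ / t - δ₀ / t := by
    rw [hmu']
    exact sub_le_self _ hδt.le
  have hle' : mu μ₀ δ₀ (2 * t) ≤ μ :=
    hle.trans ((sub_le_self _ hδt.le).trans (sub_le_self _ hδt.le))
  have hle0 : μ₀ - 6 * δ₀ ≤ μ - δ₀ / t - δ₀ / t := by linarith only [hμge, hδt]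
  obtain ⟨R, hfR⟩ := hI.f_W
  obtain ⟨R', hGR⟩ := hI.G_W
  refine ⟨fun z => f z + u z, fun z => G z + w z, ⟨?_, ?_, ?_, ?_, ?_, ?_⟩, ?_, ?_⟩
  · exact ⟨_, (hfR.mono_strip hle').add (hu.mono_strip hle)⟩
  · exact ⟨_, (hGR.mono_strip hle').add (hw.mono_strip hle)⟩
  · -- closeness of the derivative
    have hdu := hu'.deriv hδt
    rw [← hmu', Dc_div ht] at hdu
    have h1 := (hI.p_cl.mono_strip hle').add hdu
    have h2 : η * (1 - 1 / t) + Dc δ₀ * t * (Cu P Γ N T S * ε / t ^ 3) ≤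
        η * (1 - 1 / (2 * t)) := by
      have h3 : Dc δ₀ * t * (Cu P Γ N T S * ε / t ^ 3) = (Dc δ₀ * Cu P Γ N T S * ε) / t ^ 2 := by
        field_simp
      rw [h3, num_eta ht]
      exact add_le_add le_rfl (num_half2 ht hη (by rw [← mul_assoc]; exact c3))
    apply (h1.mono h2).congr
    intro z hz
    have h7 := (hfR.differentiableAt (V_mono hle' hz)).hasDerivAt.add
      (hu.differentiableAt (V_mono hle hz)).hasDerivAt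
    have h8 : deriv (fun z => f z + u z) z = deriv f z + deriv u z := h7.deriv
    rw [h8]
    ring
  · have h1 := (hI.G_cl.mono_strip hle').add (hw2.mono_strip hle)
    rw [num_eta ht]
    apply h1.congr
    intro z _
    ring
  · -- first error
    apply (hn1.mono_strip hle).mono
    refine (pow_le_pow_left₀ (mul_nonneg hCwt0 hεt.le) bw 2).trans ?_
    exact num_e1 ht hε c1
  · -- second error
    apply (hn2.mono_strip hle).mono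
    exact num_e2 ht hε hD0 hΓ hPm bv hCv0 (mul_nonneg hCut0 hεt.le) bu c2
  · apply (hu2.mono_strip hle0).congr
    intro z _
    ring
  · apply (hw2.mono_strip hle0).congr
    intro z _
    ring

end

end

end Pool.Agent.H30KAM
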