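import Pool.Agent.H30KAM.Iter

/-!
The limit of the Newton iteration is an exact solution.
-/

set_option autoImplicit false

namespace Pool.Agent.H30KAM

noncomputable section

open Complex Real

variable {s A B μ₀ δ₀ P Pm Γ N T ε η : ℝ} {f₀ G₀ : ℂ → ℂ}

/-- states of the iteration -/
def St (s μ₀ δ₀ ε η : ℝ) (f₀ G₀ : ℂ → ℂ) (n : ℕ) : Type :=
  {q : (ℂ → ℂ) × (ℂ → ℂ) // Inv s μ₀ δ₀ ε η f₀ G₀ ((2 : ℝ) ^ n) q.1 q.2}

theorem exists_next (h : Hyp s A B μ₀ δ₀ P Pm Γ N T ε η f₀ G₀) (n : ℕ)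
    (q : St s μ₀ δ₀ ε η f₀ G₀ n) : ∃ q' : St s μ₀ δ₀ ε η f₀ G₀ (n + 1),
      W (μ₀ - 6 * δ₀) (η / (2 * 2 ^ n)) (fun z => q'.1.1 z - q.1.1 z) ∧
      W (μ₀ - 6 * δ₀) (η / (2 * 2 ^ n)) (fun z => q'.1.2 z - q.1.2 z) := by
  obtain ⟨f', G', h1, h2, h3⟩ := iter_step h (one_le_pow₀ (by norm_num)) q.2
  refine ⟨⟨(f', G'), ?_⟩, h2, h3⟩
  have e : (2 : ℝ) ^ (n + 1) = 2 * 2 ^ n := by ring
  rw [e]
  exact h1

/-- existence of an exact solution -/
theorem kam (h : Hyp s A B μ₀ δ₀ P Pm Γ N T ε η f₀ G₀) (hf₀ : ∃ R, W μ₀ R f₀)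
    (hG₀ : ∃ R, W μ₀ R G₀) (h1 : W μ₀ ε (er1 s f₀ G₀)) (h2 : W μ₀ ε (er2 s f₀ G₀)) :
    ∃ f G : ℂ → ℂ, (∃ R, W (μ₀ - 6 * δ₀) R f) ∧ (∃ R, W (μ₀ - 6 * δ₀) R G) ∧
      (∀ z ∈ V (μ₀ - 6 * δ₀), er1 s f G z = 0 ∧ er2 s f G z = 0) ∧
      (∀ z ∈ V (μ₀ - 6 * δ₀), ‖G z - G₀ z‖ ≤ η) := by
  classical
  set ν := μ₀ - 6 * δ₀ with hν
  have hδ := h.hδ
  have hμ := h.hμ
  have hη := h.hη
  have hε := h.hε
  have hνμ : ν ≤ μ₀ := by rw [hν]; linarith
  -- the initial state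
  have hmu1 : mu μ₀ δ₀ ((2 : ℝ) ^ 0) = μ₀ := by
    unfold mu
    norm_num
  have hz : W μ₀ 0 (fun _ => (0 : ℂ)) := by
    have := W.const μ₀ 0
    rwa [norm_zero] at this
  have init : Inv s μ₀ δ₀ ε η f₀ G₀ ((2 : ℝ) ^ 0) f₀ G₀ := by
    refine ⟨?_, ?_, ?_, ?_, ?_, ?_⟩
    · rwa [hmu1]
    · rwa [hmu1]
    · rw [hmu1]
      have : η * (1 - 1 / (2 : ℝ) ^ 0) = 0 := by norm_num
      rw [this]
      simpa using hz
    · rw [hmu1]
      have : η * (1 - 1 / (2 : ℝ) ^ 0) = 0 := by norm_num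
      rw [this]
      simpa using hz
    · rw [hmu1]
      simpa using h1
    · rw [hmu1]
      simpa using h2
  choose next hnext1 hnext2 using exists_next h
  let q : (n : ℕ) → St s μ₀ δ₀ ε η f₀ G₀ n := fun n =>
    Nat.rec (motive := fun n => St s μ₀ δ₀ ε η f₀ G₀ n) ⟨(f₀, G₀), init⟩ (fun n q => next n q) n
  have hq0 : (q 0).1 = (f₀, G₀) := rfl
  have hq1 : ∀ n, W ν (η / (2 * 2 ^ n)) (fun z => (q (n + 1)).1.1 z - (q n).1.1 z) :=
    fun n => hnext1 n (q n)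
  have hq2 : ∀ n, W ν (η / (2 * 2 ^ n)) (fun z => (q (n + 1)).1.2 z - (q n).1.2 z) :=
    fun n => hnext2 n (q n)
  have hgeo : HasSum (fun n : ℕ => η / (2 * (2 : ℝ) ^ n)) η := by
    have h3 := (hasSum_geometric_two).mul_left (η / 2)
    have e : (fun n : ℕ => η / (2 * (2 : ℝ) ^ n)) = fun n : ℕ => η / 2 * (1 / 2 : ℝ) ^ n := by
      ext n
      rw [one_div, inv_pow]
      field_simp
    rw [e]
    have e2 : η = η / 2 * 2 := by ring
    rw [← e2] at h3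
    exact h3
  -- the limits
  obtain ⟨Rf, hRf⟩ := hf₀
  obtain ⟨RG, hRG⟩ := hG₀
  have hfW := W.tsum hq1 hgeo.summable
  have hGW := W.tsum hq2 hgeo.summable
  rw [hgeo.tsum_eq] at hfW hGW
  have conv : ∀ (F : ℕ → ℂ → ℂ), (∀ n, W ν (η / (2 * 2 ^ n)) (fun z => F (n + 1) z - F n z)) →
      ∀ z ∈ V ν, Filter.Tendsto (fun n => F n z) Filter.atTop
        (nhds (F 0 z + ∑' n, (F (n + 1) z - F n z))) := by
    intro F hF z hz
    have hs : Summable fun n => F (n + 1) z - F n z :=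
      Summable.of_norm_bounded hgeo.summable fun n => (hF n).norm_le hz
    have h3 := hs.hasSum.tendsto_sum_nat
    have h4 : ∀ n, ∑ i ∈ Finset.range n, (F (i + 1) z - F i z) = F n z - F 0 z := by
      intro n
      exact Finset.sum_range_sub (fun i => F i z) n
    simp only [h4] at h3
    have h5 := h3.const_add (F 0 z)
    simpa using h5
  set f : ℂ → ℂ := fun z => f₀ z + ∑' n, ((q (n + 1)).1.1 z - (q n).1.1 z) with hfdef
  set G : ℂ → ℂ := fun z => G₀ z + ∑' n, ((q (n + 1)).1.2 z - (q n).1.2 z) with hGdef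
  have limf : ∀ z ∈ V ν, Filter.Tendsto (fun n => (q n).1.1 z) Filter.atTop (nhds (f z)) :=
    conv (fun n => (q n).1.1) hq1
  have limG : ∀ z ∈ V ν, Filter.Tendsto (fun n => (q n).1.2 z) Filter.atTop (nhds (G z)) :=
    conv (fun n => (q n).1.2) hq2
  have hνmu : ∀ n : ℕ, ν ≤ mu μ₀ δ₀ ((2 : ℝ) ^ n) := by
    intro n
    unfold mu
    have h3 : 0 < 1 / (2 : ℝ) ^ n := by positivity
    rw [hν]
    nlinarith
  have err0 : ∀ (E : ℕ → ℂ), (∀ n, ‖E n‖ ≤ ε / ((2 : ℝ) ^ n) ^ 5) →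
      Filter.Tendsto E Filter.atTop (nhds 0) := by
    intro E hE
    apply squeeze_zero_norm hE
    have h3 : Filter.Tendsto (fun n : ℕ => ε * ((1 / 2 : ℝ) ^ 5) ^ n) Filter.atTop
        (nhds (ε * 0)) := by
      apply Filter.Tendsto.const_mul
      apply tendsto_pow_atTop_nhds_zero_of_lt_one (by norm_num) (by norm_num)
    rw [mul_zero] at h3
    have e : (fun n : ℕ => ε / ((2 : ℝ) ^ n) ^ 5) = fun n : ℕ => ε * ((1 / 2 : ℝ) ^ 5) ^ n := by
      ext n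
      rw [← pow_mul, ← pow_mul, mul_comm n 5, div_eq_mul_inv, one_div, inv_pow]
    rw [e]
    exact h3
  refine ⟨f, G, ⟨_, (hRf.mono_strip hνμ).add hfW⟩, ⟨_, (hRG.mono_strip hνμ).add hGW⟩, ?_, ?_⟩
  · intro z hz
    have hzp := add_real_mem_V hz s
    have hzm := sub_real_mem_V hz s
    constructor
    · have h3 : Filter.Tendsto (fun n => er1 s (q n).1.1 (q n).1.2 z) Filter.atTop
          (nhds (er1 s f G z)) :=
        ((limf _ hzp).sub (limf _ hzm)).sub ((limG z hz).pow 2)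
      have h4 : Filter.Tendsto (fun n => er1 s (q n).1.1 (q n).1.2 z) Filter.atTop (nhds 0) :=
        err0 _ fun n => (q n).2.e1.norm_le (V_mono (hνmu n) hz)
      exact tendsto_nhds_unique h3 h4
    · have h3 : Filter.Tendsto (fun n => er2 s (q n).1.1 (q n).1.2 z) Filter.atTop
          (nhds (er2 s f G z)) :=
        ((limG _ hzp).sub (limG _ hzm)).sub ((limf z hz).pow 2)
      have h4 : Filter.Tendsto (fun n => er2 s (q n).1.1 (q n).1.2 z) Filter.atTop (nhds 0) :=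
        err0 _ fun n => (q n).2.e2.norm_le (V_mono (hνmu n) hz)
      exact tendsto_nhds_unique h3 h4
  · intro z hz
    have h3 : G z - G₀ z = ∑' n, ((q (n + 1)).1.2 z - (q n).1.2 z) := by
      simp [hGdef]
    rw [h3]
    exact hGW.norm_le hz

end

end Pool.Agent.H30KAM
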