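import Pool.Agent.H30KAM.Wiener

/-!
Derivatives, averages, small divisors and inverses for functions on a strip.
-/

set_option autoImplicit false

namespace Pool.Agent.H30KAM

noncomputable section

open Complex Real

theorem mult_summ {μ δ C : ℝ} {a m : ℤ → ℂ} (ha : Summable fun k => ‖a k‖ * wt μ k)
    (hm : ∀ k, ‖m k‖ * wt (μ - δ) k ≤ C * wt μ k) :
    Summable fun k => ‖m k * a k‖ * wt (μ - δ) k := by
  apply Summable.of_nonneg_of_le (fun k => mul_nonneg (norm_nonneg _) (wt_pos _ k).le) _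
    (ha.mul_left C)
  intro k
  rw [norm_mul]
  calc ‖m k‖ * ‖a k‖ * wt (μ - δ) k = ‖a k‖ * (‖m k‖ * wt (μ - δ) k) := by ring
    _ ≤ ‖a k‖ * (C * wt μ k) := mul_le_mul_of_nonneg_left (hm k) (norm_nonneg _)
    _ = _ := by ring

theorem mult_nrm {μ δ C : ℝ} {a m : ℤ → ℂ} (ha : Summable fun k => ‖a k‖ * wt μ k)
    (hm : ∀ k, ‖m k‖ * wt (μ - δ) k ≤ C * wt μ k) :
    nrm (μ - δ) (fun k => m k * a k) ≤ C * nrm μ a := by
  unfold nrm
  rw [← tsum_mul_left]
  apply (mult_summ ha hm).tsum_le_tsum _ (ha.mul_left C)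
  intro k
  rw [norm_mul]
  calc ‖m k‖ * ‖a k‖ * wt (μ - δ) k = ‖a k‖ * (‖m k‖ * wt (μ - δ) k) := by ring
    _ ≤ ‖a k‖ * (C * wt μ k) := mul_le_mul_of_nonneg_left (hm k) (norm_nonneg _)
    _ = _ := by ring

/-- the elementary inequality behind Cauchy estimates -/
theorem abs_mul_wt_le {μ δ : ℝ} (hδ : 0 < δ) (k : ℤ) :
    |(k : ℝ)| * wt (μ - δ) k ≤ (1 / (Real.exp 1 * δ)) * wt μ k := by
  have h1 : wt (μ - δ) k = wt μ k * Real.exp (-(δ * |(k : ℝ)|)) := by
    unfold wt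
    rw [← Real.exp_add]
    congr 1
    ring
  rw [h1]
  have h2 := Real.add_one_le_exp (δ * |(k : ℝ)| - 1)
  have h3 : δ * |(k : ℝ)| ≤ Real.exp (δ * |(k : ℝ)| - 1) := by linarith
  have h4 : δ * |(k : ℝ)| * Real.exp (-(δ * |(k : ℝ)|)) ≤ Real.exp (-1) := by
    calc δ * |(k : ℝ)| * Real.exp (-(δ * |(k : ℝ)|))
        ≤ Real.exp (δ * |(k : ℝ)| - 1) * Real.exp (-(δ * |(k : ℝ)|)) :=
          mul_le_mul_of_nonneg_right h3 (Real.exp_pos _).le
      _ = Real.exp (-1) := by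
          rw [← Real.exp_add]
          congr 1
          ring
  have h5 : |(k : ℝ)| * Real.exp (-(δ * |(k : ℝ)|)) ≤ 1 / (Real.exp 1 * δ) := by
    rw [le_div_iff₀ (by positivity)]
    have h6 : Real.exp (-1) * Real.exp 1 = 1 := by
      rw [← Real.exp_add]
      simp
    calc |(k : ℝ)| * Real.exp (-(δ * |(k : ℝ)|)) * (Real.exp 1 * δ)
        = (δ * |(k : ℝ)| * Real.exp (-(δ * |(k : ℝ)|))) * Real.exp 1 := by ring
      _ ≤ Real.exp (-1) * Real.exp 1 := mul_le_mul_of_nonneg_right h4 (Real.exp_pos _).le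
      _ = 1 := h6
  calc |(k : ℝ)| * (wt μ k * Real.exp (-(δ * |(k : ℝ)|)))
      = (|(k : ℝ)| * Real.exp (-(δ * |(k : ℝ)|))) * wt μ k := by ring
    _ ≤ _ := mul_le_mul_of_nonneg_right h5 (wt_pos μ k).le

/-- the constant of the Cauchy estimate -/
def Dc (δ : ℝ) : ℝ := 2 * π / (Real.exp 1 * δ)

/-- the multiplier of the derivative -/
def dm (k : ℤ) : ℂ := 2 * π * I * k

theorem dm_le {μ δ : ℝ} (hδ : 0 < δ) (k : ℤ) :
    ‖dm k‖ * wt (μ - δ) k ≤ Dc δ * wt μ k := by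
  have h1 : ‖dm k‖ = 2 * π * |(k : ℝ)| := by
    unfold dm
    rw [norm_mul, norm_mul, norm_mul]
    simp [abs_of_pos Real.pi_pos]
  rw [h1]
  have h2 := mul_le_mul_of_nonneg_left (abs_mul_wt_le (μ := μ) hδ k)
    (show (0 : ℝ) ≤ 2 * π by positivity)
  unfold Dc
  calc 2 * π * |(k : ℝ)| * wt (μ - δ) k = 2 * π * (|(k : ℝ)| * wt (μ - δ) k) := by ring
    _ ≤ 2 * π * ((1 / (Real.exp 1 * δ)) * wt μ k) := h2
    _ = _ := by ring

theorem hasDerivAt_ek (k : ℤ) (z : ℂ) : HasDerivAt (ek k) (dm k * ek k z) z := by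
  unfold ek dm
  have h1 : HasDerivAt (fun z : ℂ => 2 * π * I * k * z) (2 * π * I * k * 1) z :=
    (hasDerivAt_id z).const_mul _
  have h2 := h1.cexp
  have e : 2 * π * I * k * Complex.exp (2 * π * I * k * z) =
      Complex.exp (2 * π * I * k * z) * (2 * π * I * k * 1) := by ring
  rw [e]
  exact h2

theorem exists_smaller {μ : ℝ} {z : ℂ} (hz : z ∈ V μ) : ∃ ν < μ, z ∈ V ν := by
  obtain ⟨ν, h1, h2⟩ := exists_between (show 2 * π * |z.im| < μ from hz)
  exact ⟨ν, h2, h1⟩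

theorem Rep.hasDerivAt {μ : ℝ} {F : ℂ → ℂ} {a : ℤ → ℂ} (hF : Rep μ F a) {z : ℂ} (hz : z ∈ V μ) :
    HasDerivAt F (∑' k, dm k * a k * ek k z) z := by
  obtain ⟨ν, hν, hzν⟩ := exists_smaller hz
  have hδ : 0 < μ - ν := by linarith
  have hs := mult_summ (C := Dc (μ - ν)) (δ := μ - ν) hF.summ (dm_le hδ)
  have e : μ - (μ - ν) = ν := by ring
  rw [e] at hs
  have h1 : HasDerivAt (fun w => ∑' k, a k * ek k w) (∑' k, dm k * a k * ek k z) z := by
    apply hasDerivAt_tsum_of_isPreconnected hs (isOpen_V ν) (V_convex ν).isPreconnected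
      (y₀ := z) _ _ hzν _ hzν
    · intro k y _
      have := (hasDerivAt_ek k y).const_mul (a k)
      have e : dm k * a k * ek k y = a k * (dm k * ek k y) := by ring
      rw [e]
      exact this
    · intro k y hy
      rw [norm_mul]
      exact mul_le_mul_of_nonneg_left (norm_ek_le hy k) (norm_nonneg _)
    · exact summable_ek (hF.mono hν.le).summ hzν
  apply h1.congr_of_eventuallyEq
  filter_upwards [(isOpen_V μ).mem_nhds hz] with w hw
  exact (hF.eq w hw).tsum_eq.symm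

theorem Rep.deriv {μ δ : ℝ} {F : ℂ → ℂ} {a : ℤ → ℂ} (hF : Rep μ F a) (hδ : 0 < δ) :
    Rep (μ - δ) (deriv F) (fun k => dm k * a k) where
  summ := mult_summ hF.summ (dm_le hδ)
  eq := fun z hz => by
    rw [(hF.hasDerivAt (V_mono (by linarith) hz)).deriv]
    exact (summable_ek (mult_summ hF.summ (dm_le hδ)) hz).hasSum

theorem W.deriv {μ δ M : ℝ} {F : ℂ → ℂ} (hF : W μ M F) (hδ : 0 < δ) :
    W (μ - δ) (Dc δ * M) (deriv F) := by
  obtain ⟨a, ha, hM⟩ := hF
  refine ⟨_, ha.deriv hδ, (mult_nrm ha.summ (dm_le hδ)).trans ?_⟩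
  apply mul_le_mul_of_nonneg_left hM
  unfold Dc
  positivity

theorem W.differentiableAt {μ M : ℝ} {F : ℂ → ℂ} (hF : W μ M F) {z : ℂ} (hz : z ∈ V μ) :
    DifferentiableAt ℂ F z := by
  obtain ⟨a, ha, _⟩ := hF
  exact (ha.hasDerivAt hz).differentiableAt

/-- the average over a period -/
def avg (F : ℂ → ℂ) : ℂ := ∫ x in (0 : ℝ)..1, F x

theorem integral_ek (k : ℤ) : ∫ x in (0 : ℝ)..1, ek k x = if k = 0 then 1 else 0 := by
  by_cases hk : k = 0
  · subst hk
    simp [ek_zero]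
  · rw [if_neg hk]
    unfold ek
    have hc : (2 * π * I * k : ℂ) ≠ 0 := by
      have := Real.pi_ne_zero
      simp [hk, this]
    rw [integral_exp_mul_complex hc]
    have h1 : Complex.exp (2 * π * I * k * ((1 : ℝ) : ℂ)) = 1 := by
      rw [Complex.exp_eq_one_iff]
      exact ⟨k, by push_cast; ring⟩
    have h2 : Complex.exp (2 * π * I * k * ((0 : ℝ) : ℂ)) = 1 := by simp
    rw [h1, h2]
    simp

theorem Rep.avg_eq {μ : ℝ} (hμ : 0 < μ) {F : ℂ → ℂ} {a : ℤ → ℂ} (hF : Rep μ F a) :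
    avg F = a 0 := by
  have hsum : Summable fun k => ‖a k‖ := by
    apply Summable.of_nonneg_of_le (fun k => norm_nonneg _) _ hF.summ
    intro k
    have := wt_ge_one hμ.le k
    nlinarith [norm_nonneg (a k)]
  have h1 : HasSum (fun k => ∫ x in (0 : ℝ)..1, a k * ek k x) (∫ x in (0 : ℝ)..1, F x) := by
    apply intervalIntegral.hasSum_integral_of_dominated_convergence (fun k _ => ‖a k‖)
    · intro k
      apply Continuous.aestronglyMeasurable
      unfold ek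
      fun_prop
    · intro k
      filter_upwards with x _
      rw [norm_mul, norm_ek_real, mul_one]
    · filter_upwards with x _
      exact hsum
    · apply intervalIntegrable_const
    · filter_upwards with x _
      exact hF.eq x (real_mem_V hμ x)
  have h2 : HasSum (fun k => ∫ x in (0 : ℝ)..1, a k * ek k x) (a 0) := by
    have h3 : (fun k => ∫ x in (0 : ℝ)..1, a k * ek k x) = fun k => if k = 0 then a 0 else 0 := by
      ext k
      rw [intervalIntegral.integral_const_mul, integral_ek]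
      by_cases hk : k = 0
      · simp [hk]
      · simp [hk]
    rw [h3]
    exact hasSum_ite_eq 0 (a 0)
  exact h1.unique h2

theorem norm_coeff_le {μ : ℝ} {a : ℤ → ℂ} (h : Summable fun k => ‖a k‖ * wt μ k) :
    ‖a 0‖ ≤ nrm μ a := by
  have := h.le_tsum 0 (fun k _ => mul_nonneg (norm_nonneg _) (wt_pos μ k).le)
  rw [wt_zero, mul_one] at this
  exact this

theorem W.norm_avg_le {μ M : ℝ} (hμ : 0 < μ) {F : ℂ → ℂ} (hF : W μ M F) : ‖avg F‖ ≤ M := by
  obtain ⟨a, ha, hM⟩ := hF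
  rw [ha.avg_eq hμ]
  exact (norm_coeff_le ha.summ).trans hM

theorem avg_add {μ M N : ℝ} (hμ : 0 < μ) {F G : ℂ → ℂ} (hF : W μ M F) (hG : W μ N G) :
    avg (fun z => F z + G z) = avg F + avg G := by
  obtain ⟨a, ha, _⟩ := hF
  obtain ⟨b, hb, _⟩ := hG
  rw [ha.avg_eq hμ, hb.avg_eq hμ, (ha.add hb).avg_eq hμ]

theorem avg_smul {μ M : ℝ} (hμ : 0 < μ) {F : ℂ → ℂ} (c : ℂ) (hF : W μ M F) :
    avg (fun z => c * F z) = c * avg F := by
  obtain ⟨a, ha, _⟩ := hF
  rw [ha.avg_eq hμ, (ha.smul c).avg_eq hμ]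

theorem avg_sub {μ M N : ℝ} (hμ : 0 < μ) {F G : ℂ → ℂ} (hF : W μ M F) (hG : W μ N G) :
    avg (fun z => F z - G z) = avg F - avg G := by
  have h1 : (fun z => F z - G z) = fun z => F z + (-1) * G z := by
    ext z
    ring
  rw [h1, avg_add hμ hF (hG.smul (-1)), avg_smul hμ (-1) hG]
  ring

theorem avg_shift {μ M : ℝ} (hμ : 0 < μ) {F : ℂ → ℂ} (hF : W μ M F) (t : ℝ) :
    avg (fun z => F (z + t)) = avg F := by
  obtain ⟨a, ha, _⟩ := hF
  rw [ha.avg_eq hμ, (ha.shift t).avg_eq hμ, ek_zero, mul_one]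

theorem avg_deriv {μ M : ℝ} (hμ : 0 < μ) {F : ℂ → ℂ} (hF : W μ M F) : avg (deriv F) = 0 := by
  obtain ⟨a, ha, _⟩ := hF
  rw [(ha.deriv (δ := μ / 2) (by linarith)).avg_eq (by linarith)]
  simp [dm]

theorem avg_congr {μ : ℝ} (hμ : 0 < μ) {F G : ℂ → ℂ} (h : ∀ z ∈ V μ, F z = G z) :
    avg F = avg G := by
  unfold avg
  congr 1
  ext x
  exact h x (real_mem_V hμ x)

theorem avg_const (c : ℂ) : avg (fun _ => c) = c := by
  simp [avg]

/-- the Diophantine condition with constants `A`, `B` -/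
def Dio (θ A B : ℝ) : Prop := ∀ k : ℤ, k ≠ 0 → 4 ≤ (A + B * |(k : ℝ)|) * ‖ek k θ - 1‖

/-- the constant of the small divisor estimate -/
def Sc (A B δ : ℝ) : ℝ := (A + B / (Real.exp 1 * δ)) / 4

/-- the multiplier of the small divisor operator -/
def sm (θ : ℝ) (k : ℤ) : ℂ := if k = 0 then 0 else (ek k θ - 1)⁻¹

theorem sm_le {θ A B : ℝ} (hA : 0 ≤ A) (hB : 0 ≤ B) (h : Dio θ A B) {μ δ : ℝ} (hδ : 0 < δ)
    (k : ℤ) : ‖sm θ k‖ * wt (μ - δ) k ≤ Sc A B δ * wt μ k := by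
  unfold sm
  by_cases hk : k = 0
  · rw [if_pos hk, norm_zero, zero_mul]
    have : 0 ≤ Sc A B δ := by unfold Sc; positivity
    exact mul_nonneg this (wt_pos μ k).le
  · rw [if_neg hk, norm_inv]
    have h1 := h k hk
    have h2 : 0 < ‖ek k θ - 1‖ := by
      by_contra hcon
      push Not at hcon
      have h3 : ‖ek k θ - 1‖ = 0 := le_antisymm hcon (norm_nonneg _)
      rw [h3, mul_zero] at h1
      linarith
    have h3 : ‖ek k θ - 1‖⁻¹ ≤ (A + B * |(k : ℝ)|) / 4 := by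
      rw [inv_le_comm₀ h2 (by nlinarith [abs_nonneg (k : ℝ)]), inv_div,
        div_le_iff₀ (by nlinarith [abs_nonneg (k : ℝ)])]
      linarith
    have h4 := abs_mul_wt_le (μ := μ) hδ k
    have h5 : wt (μ - δ) k ≤ wt μ k := wt_mono (by linarith) k
    calc ‖ek k θ - 1‖⁻¹ * wt (μ - δ) k ≤ (A + B * |(k : ℝ)|) / 4 * wt (μ - δ) k :=
          mul_le_mul_of_nonneg_right h3 (wt_pos _ k).le
      _ = (A * wt (μ - δ) k + B * (|(k : ℝ)| * wt (μ - δ) k)) / 4 := by ring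
      _ ≤ (A * wt μ k + B * ((1 / (Real.exp 1 * δ)) * wt μ k)) / 4 := by
          have h6 := mul_le_mul_of_nonneg_left h5 hA
          have h7 := mul_le_mul_of_nonneg_left h4 hB
          linarith
      _ = Sc A B δ * wt μ k := by unfold Sc; ring

/-- solution of the cohomological equation -/
theorem W.sd {θ A B : ℝ} (hA : 0 ≤ A) (hB : 0 ≤ B) (h : Dio θ A B) {μ δ M : ℝ} (hδ : 0 < δ)
    (hμ : 0 < μ) {g : ℂ → ℂ} (hg : W μ M g) :
    ∃ ψ, W (μ - δ) (Sc A B δ * M) ψ ∧ ∀ z ∈ V (μ - δ), ψ (z + θ) - ψ z = g z - avg g := by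
  obtain ⟨a, ha, hM⟩ := hg
  have hs := mult_summ ha.summ (sm_le hA hB h (μ := μ) hδ)
  have hψ : Rep (μ - δ) (fun z => ∑' k, sm θ k * a k * ek k z) (fun k => sm θ k * a k) :=
    ⟨hs, fun z hz => (summable_ek hs hz).hasSum⟩
  refine ⟨_, ⟨_, hψ, (mult_nrm ha.summ (sm_le hA hB h (μ := μ) hδ)).trans ?_⟩, ?_⟩
  · apply mul_le_mul_of_nonneg_left hM
    unfold Sc
    positivity
  · intro z hz
    have h1 := hψ.eq (z + θ) (add_real_mem_V hz θ)
    have h2 := hψ.eq z hz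
    have h3 := h1.sub h2
    have h4 := ha.eq z (V_mono (by linarith) hz)
    rw [ha.avg_eq hμ]
    have h5 : HasSum (fun k : ℤ => if k = 0 then a 0 else 0) (a 0) := hasSum_ite_eq 0 (a 0)
    have h6 := h4.sub h5
    refine h3.unique ?_
    convert h6 using 2 with k
    rw [ek_add_right]
    unfold sm
    by_cases hk : k = 0
    · subst hk
      simp [ek_zero]
    · have h7 := h k hk
      have h8 : ek k θ - 1 ≠ 0 := by
        intro hcon
        rw [hcon, norm_zero, mul_zero] at h7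
        linarith
      rw [if_neg hk, if_neg hk]
      field_simp
      ring

/-- sums of series of functions -/
theorem W.tsum {μ : ℝ} {M : ℕ → ℝ} {F : ℕ → ℂ → ℂ} (hF : ∀ n, W μ (M n) (F n))
    (hM : Summable M) : W μ (∑' n, M n) (fun z => ∑' n, F n z) := by
  choose a ha haM using hF
  have hs2 : Summable fun p : ℕ × ℤ => ‖a p.1 p.2‖ * wt μ p.2 := by
    rw [summable_prod_of_nonneg (fun p => mul_nonneg (norm_nonneg _) (wt_pos μ _).le)]
    refine ⟨fun n => (ha n).summ, ?_⟩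
    exact Summable.of_nonneg_of_le (fun n => nrm_nonneg μ (a n)) haM hM
  have hs3 : Summable fun p : ℤ × ℕ => ‖a p.2 p.1‖ * wt μ p.1 := hs2.prod_symm
  have hfib : ∀ k, Summable fun n => ‖a n k‖ := by
    intro k
    have h1 := hs3.prod_factor k
    have h2 := h1.mul_right ((wt μ k)⁻¹)
    refine h2.congr fun n => ?_
    rw [mul_assoc, mul_inv_cancel₀ (wt_pos μ k).ne', mul_one]
  have hle : ∀ k, ‖∑' n, a n k‖ * wt μ k ≤ ∑' n, ‖a n k‖ * wt μ k := by
    intro k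
    rw [tsum_mul_right]
    exact mul_le_mul_of_nonneg_right (norm_tsum_le_tsum_norm (hfib k)) (wt_pos μ k).le
  have hsum : Summable fun k => ‖∑' n, a n k‖ * wt μ k :=
    Summable.of_nonneg_of_le (fun k => mul_nonneg (norm_nonneg _) (wt_pos μ k).le) hle hs3.prod
  refine ⟨fun k => ∑' n, a n k, ⟨hsum, ?_⟩, ?_⟩
  · intro z hz
    have h1 : Summable fun p : ℤ × ℕ => a p.2 p.1 * ek p.1 z := by
      apply Summable.of_norm_bounded hs3
      intro p
      rw [norm_mul]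
      exact mul_le_mul_of_nonneg_left (norm_ek_le hz p.1) (norm_nonneg _)
    have h2 : ∀ k : ℤ, HasSum (fun n => a n k * ek k z) ((∑' n, a n k) * ek k z) := by
      intro k
      exact ((hfib k).of_norm.hasSum).mul_right _
    have h3 := h1.hasSum.prod_fiberwise h2
    have h4 : HasSum (fun p : ℕ × ℤ => a p.1 p.2 * ek p.2 z)
        (∑' p : ℤ × ℕ, a p.2 p.1 * ek p.1 z) :=
      (Equiv.hasSum_iff (Equiv.prodComm ℤ ℕ)
        (f := fun p : ℕ × ℤ => a p.1 p.2 * ek p.2 z)).1 h1.hasSum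
    have h5 := h4.prod_fiberwise (fun n => (ha n).eq z hz)
    rw [← h5.tsum_eq] at h3
    exact h3
  · have h1 : nrm μ (fun k => ∑' n, a n k) ≤ ∑' k, ∑' n, ‖a n k‖ * wt μ k :=
      hsum.tsum_le_tsum hle hs3.prod
    have h2 : ∑' k, ∑' n, ‖a n k‖ * wt μ k = ∑' n, nrm μ (a n) := by
      rw [← hs3.tsum_prod]
      unfold nrm
      rw [← hs2.tsum_prod]
      exact (Equiv.tsum_eq (Equiv.prodComm ℤ ℕ)
        (fun p : ℕ × ℤ => ‖a p.1 p.2‖ * wt μ p.2))
    rw [h2] at h1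
    exact h1.trans ((Summable.of_nonneg_of_le (fun n => nrm_nonneg μ (a n)) haM hM).tsum_le_tsum
      haM hM)

theorem W.pow {μ M : ℝ} (hμ : 0 ≤ μ) {F : ℂ → ℂ} (hF : W μ M F) (n : ℕ) :
    W μ (M ^ n) (fun z => F z ^ n) := by
  induction n with
  | zero =>
    have := W.const μ 1
    simpa using this
  | succ n ih =>
    have := ih.mul hμ hF
    simpa only [pow_succ] using this

/-- inverses by the geometric series -/
theorem W.inv_one_sub {μ r : ℝ} (hμ : 0 ≤ μ) {E : ℂ → ℂ} (hE : W μ r E) (hr : r < 1) :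
    W μ (1 / (1 - r)) (fun z => (1 - E z)⁻¹) ∧ ∀ z ∈ V μ, 1 - E z ≠ 0 := by
  have hr0 := hE.nonneg
  constructor
  · have h1 := W.tsum (fun n => hE.pow hμ n) (summable_geometric_of_lt_one hr0 hr)
    rw [tsum_geometric_of_lt_one hr0 hr, inv_eq_one_div] at h1
    apply h1.congr
    intro z hz
    exact tsum_geometric_of_norm_lt_one ((hE.norm_le hz).trans_lt hr)
  · intro z hz h
    have h1 := hE.norm_le hz
    have h2 : E z = 1 := (sub_eq_zero.1 h).symm
    rw [h2, norm_one] at h1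
    linarith

/-- inverse from an approximate inverse -/
theorem W.inv_of_approx {μ r β : ℝ} (hμ : 0 ≤ μ) {F B : ℂ → ℂ} (hB : W μ β B)
    (hr : W μ r (fun z => 1 - B z * F z)) (hr1 : r < 1) :
    W μ (β / (1 - r)) (fun z => (F z)⁻¹) ∧ ∀ z ∈ V μ, F z ≠ 0 := by
  obtain ⟨h1, h2⟩ := W.inv_one_sub hμ hr hr1
  have h3 : ∀ z ∈ V μ, B z * F z ≠ 0 := by
    intro z hz
    have := h2 z hz
    simpa using this
  constructor
  · have h4 := hB.mul hμ h1
    rw [mul_one_div] at h4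
    apply h4.congr
    intro z hz
    have h5 := h3 z hz
    have h6 : B z ≠ 0 := fun h => h5 (by rw [h, zero_mul])
    have h7 : F z ≠ 0 := fun h => h5 (by rw [h, mul_zero])
    have h8 : 1 - (1 - B z * F z) = B z * F z := by ring
    rw [h8]
    field_simp
  · intro z hz h
    exact h3 z hz (by rw [h, mul_zero])

end

end Pool.Agent.H30KAM
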