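import Pool.Agent.H30KAM.Dio

/-!
Trigonometric polynomials with Gaussian integer coefficients.
-/

set_option autoImplicit false

namespace Pool.Agent.H30KAM

/-- addition of pairs -/
def gadd (a b : ℤ × ℤ) : ℤ × ℤ := (a.1 + b.1, a.2 + b.2)

/-- multiplication of Gaussian integers -/
def gmul (a b : ℤ × ℤ) : ℤ × ℤ := (a.1 * b.1 - a.2 * b.2, a.1 * b.2 + a.2 * b.1)

/-- conjugation -/
def gcj (a : ℤ × ℤ) : ℤ × ℤ := (a.1, -a.2)

/-- sum of coefficient lists -/
def ladd : List (ℤ × ℤ) → List (ℤ × ℤ) → List (ℤ × ℤ)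
  | [], b => b
  | a :: as, [] => a :: as
  | a :: as, b :: bs => gadd a b :: ladd as bs

/-- multiple of a coefficient list -/
def lsmul (c : ℤ × ℤ) : List (ℤ × ℤ) → List (ℤ × ℤ)
  | [] => []
  | a :: as => gmul c a :: lsmul c as

/-- product of coefficient lists -/
def lmul : List (ℤ × ℤ) → List (ℤ × ℤ) → List (ℤ × ℤ)
  | [], _ => []
  | a :: as, b => ladd (lsmul a b) ((0, 0) :: lmul as b)

/-- coefficients of the derivative, up to the factor `2 pi` -/
def dk : ℤ → List (ℤ × ℤ) → List (ℤ × ℤ)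
  | _, [] => []
  | k, a :: as => (-(k * a.2), k * a.1) :: dk (k + 1) as

/-- pointwise product with a function of the index -/
def had (R : ℤ → ℤ × ℤ) : ℤ → List (ℤ × ℤ) → List (ℤ × ℤ)
  | _, [] => []
  | k, a :: as => gmul a (R k) :: had R (k + 1) as

/-- twelve times an upper bound of the absolute value -/
def ab (a : ℤ × ℤ) : ℕ := 7 * max a.1.natAbs a.2.natAbs + 5 * (a.1.natAbs + a.2.natAbs)

/-- the weighted norm, times `12 * 8 ^ M` -/
def nI (M : ℕ) : ℤ → List (ℤ × ℤ) → ℕ
  | _, [] => 0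
  | k, a :: as => ab a * (9 ^ k.natAbs * 8 ^ (M - k.natAbs)) + nI M (k + 1) as

/-- the weighted norm of the derivative, times `12 * 8 ^ M` -/
def nD (M : ℕ) : ℤ → List (ℤ × ℤ) → ℕ
  | _, [] => 0
  | k, a :: as => k.natAbs * (ab a * (9 ^ k.natAbs * 8 ^ (M - k.natAbs))) + nD M (k + 1) as

noncomputable section

open Complex Real

/-- the complex number of a pair -/
def gc (a : ℤ × ℤ) : ℂ := a.1 + a.2 * I

theorem gc_add (a b : ℤ × ℤ) : gc (gadd a b) = gc a + gc b := by
  unfold gc gadd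
  push_cast
  ring

theorem gc_mul (a b : ℤ × ℤ) : gc (gmul a b) = gc a * gc b := by
  unfold gc gmul
  push_cast
  linear_combination (-(a.2 : ℂ) * b.2) * I_mul_I

theorem gc_zero : gc (0, 0) = 0 := by
  simp [gc]

theorem gc_cj (a : ℤ × ℤ) : gc (gcj a) = (starRingEnd ℂ) (gc a) := by
  unfold gc gcj
  simp

theorem norm_gc_le (a : ℤ × ℤ) : 12 * ‖gc a‖ ≤ ab a := by
  have h1 : ‖gc a‖ = √((a.1 : ℝ) ^ 2 + (a.2 : ℝ) ^ 2) := by
    rw [Complex.norm_eq_sqrt_sq_add_sq]
    unfold gc
    simp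
  have e1 : ((a.1.natAbs : ℕ) : ℝ) = |(a.1 : ℝ)| := by
    rw [Nat.cast_natAbs, Int.cast_abs]
  have e2 : ((a.2.natAbs : ℕ) : ℝ) = |(a.2 : ℝ)| := by
    rw [Nat.cast_natAbs, Int.cast_abs]
  have h2 : (ab a : ℝ) = 7 * max |(a.1 : ℝ)| |(a.2 : ℝ)| + 5 * (|(a.1 : ℝ)| + |(a.2 : ℝ)|) := by
    unfold ab
    push_cast [e1, e2]
    rfl
  rw [h1, h2, ← sq_abs (a.1 : ℝ), ← sq_abs (a.2 : ℝ)]
  have x0 := abs_nonneg (a.1 : ℝ)
  have y0 := abs_nonneg (a.2 : ℝ)
  generalize |(a.1 : ℝ)| = x at *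
  generalize |(a.2 : ℝ)| = y at *
  have h3 : √(x ^ 2 + y ^ 2) ≤ (7 * max x y + 5 * (x + y)) / 12 := by
    apply Real.sqrt_le_iff.2
    have hm : 0 ≤ max x y := x0.trans (le_max_left _ _)
    refine ⟨by positivity, ?_⟩
    rcases le_total x y with h | h
    · rw [max_eq_right h]
      nlinarith [mul_nonneg x0 (sub_nonneg.2 h)]
    · rw [max_eq_left h]
      nlinarith [mul_nonneg y0 (sub_nonneg.2 h)]
  linarith

/-- evaluation of a polynomial -/
def ev : List (ℤ × ℤ) → ℂ → ℂ
  | [], _ => 0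
  | a :: as, w => gc a + w * ev as w

theorem ev_ladd (A B : List (ℤ × ℤ)) (w : ℂ) : ev (ladd A B) w = ev A w + ev B w := by
  induction A generalizing B with
  | nil => simp [ladd, ev]
  | cons a A ih =>
    cases B with
    | nil => simp [ladd, ev]
    | cons b B =>
      simp only [ladd, ev, ih, gc_add]
      ring

theorem ev_lsmul (c : ℤ × ℤ) (A : List (ℤ × ℤ)) (w : ℂ) :
    ev (lsmul c A) w = gc c * ev A w := by
  induction A with
  | nil => simp [lsmul, ev]
  | cons a A ih =>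
    simp only [lsmul, ev, ih, gc_mul]
    ring

theorem ev_lmul (A B : List (ℤ × ℤ)) (w : ℂ) : ev (lmul A B) w = ev A w * ev B w := by
  induction A with
  | nil => simp [lmul, ev]
  | cons a A ih =>
    simp only [lmul, ev_ladd, ev_lsmul, ev, ih, gc_zero]
    ring

theorem ev_append (A B : List (ℤ × ℤ)) (w : ℂ) :
    ev (A ++ B) w = ev A w + w ^ A.length * ev B w := by
  induction A with
  | nil => simp [ev]
  | cons a A ih =>
    simp only [List.cons_append, ev, ih, List.length_cons]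
    ring

theorem ev_pad (n : ℕ) (A : List (ℤ × ℤ)) (w : ℂ) :
    ev (List.replicate n (0, 0) ++ A) w = w ^ n * ev A w := by
  rw [ev_append, List.length_replicate]
  have h : ev (List.replicate n (0, 0)) w = 0 := by
    induction n with
    | zero => simp [ev]
    | succ n ih => simp [List.replicate_succ, ev, ih, gc_zero]
  rw [h, zero_add]

theorem ev_reverse (A : List (ℤ × ℤ)) {w : ℂ} (hw : w ≠ 0) :
    w ^ A.length * ev A w⁻¹ = w * ev A.reverse w := by
  induction A with
  | nil => simp [ev]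
  | cons a A ih =>
    simp only [List.length_cons, ev, List.reverse_cons, ev_append, List.length_reverse]
    have h1 : w ^ (A.length + 1) * (gc a + w⁻¹ * ev A w⁻¹) =
        w * w ^ A.length * gc a + (w * w⁻¹) * (w ^ A.length * ev A w⁻¹) := by ring
    rw [h1, ih, mul_inv_cancel₀ hw]
    ring

/-- a trigonometric polynomial -/
def tp (k : ℤ) (A : List (ℤ × ℤ)) (z : ℂ) : ℂ := ek k z * ev A (ek 1 z)

theorem tp_nil (k : ℤ) (z : ℂ) : tp k [] z = 0 := by
  simp [tp, ev]

theorem tp_cons (k : ℤ) (a : ℤ × ℤ) (A : List (ℤ × ℤ)) (z : ℂ) :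
    tp k (a :: A) z = gc a * ek k z + tp (k + 1) A z := by
  simp only [tp, ev, ek_add_left]
  ring

theorem tp_ladd (k : ℤ) (A B : List (ℤ × ℤ)) (z : ℂ) :
    tp k (ladd A B) z = tp k A z + tp k B z := by
  unfold tp
  rw [ev_ladd]
  ring

theorem tp_lsmul (k : ℤ) (c : ℤ × ℤ) (A : List (ℤ × ℤ)) (z : ℂ) :
    tp k (lsmul c A) z = gc c * tp k A z := by
  unfold tp
  rw [ev_lsmul]
  ring

theorem tp_lmul (k l : ℤ) (A B : List (ℤ × ℤ)) (z : ℂ) :
    tp (k + l) (lmul A B) z = tp k A z * tp l B z := by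
  unfold tp
  rw [ev_lmul, ek_add_left]
  ring

theorem ek_nat (n : ℕ) (z : ℂ) : ek (n : ℤ) z = ek 1 z ^ n := by
  unfold ek
  rw [← Complex.exp_nat_mul]
  congr 1
  push_cast
  ring

theorem ek_neg (k : ℤ) (z : ℂ) : ek k (-z) = ek (-k) z := by
  unfold ek
  congr 1
  push_cast
  ring

theorem ek_neg_left (k : ℤ) (z : ℂ) : ek (-k) z = (ek k z)⁻¹ := by
  unfold ek
  rw [← Complex.exp_neg]
  congr 1
  push_cast
  ring

theorem tp_pad (k : ℤ) (n : ℕ) (A : List (ℤ × ℤ)) (z : ℂ) :
    tp k (List.replicate n (0, 0) ++ A) z = tp (k + n) A z := by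
  unfold tp
  rw [ev_pad, ek_add_left, ek_nat]
  ring

theorem tp_reverse (k l : ℤ) (A : List (ℤ × ℤ)) (h : l + k + A.length = 1) (z : ℂ) :
    tp k A (-z) = tp l A.reverse z := by
  unfold tp
  have h1 := ev_reverse A (ek_ne_zero 1 z)
  have h2 : ek 1 (-z) = (ek 1 z)⁻¹ := by rw [ek_neg, ek_neg_left]
  have h3 : l = 1 - k - A.length := by linarith
  have h4 : ek l z * ek (A.length : ℤ) z = ek (-k) z * ek 1 z := by
    rw [← ek_add_left, ← ek_add_left]
    congr 1
    rw [h3]
    ring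
  rw [h2, ek_neg, ← mul_right_inj' (ek_ne_zero 1 z)]
  rw [ek_nat] at h4
  calc ek 1 z * (ek (-k) z * ev A (ek 1 z)⁻¹)
      = (ek (-k) z * ek 1 z) * ev A (ek 1 z)⁻¹ := by ring
    _ = ek l z * (ek 1 z ^ A.length * ev A (ek 1 z)⁻¹) := by rw [← h4]; ring
    _ = _ := by rw [h1]; ring

theorem tp_deriv (k : ℤ) (A : List (ℤ × ℤ)) (z : ℂ) :
    HasDerivAt (tp k A) (2 * π * tp k (dk k A) z) z := by
  induction A generalizing k with
  | nil =>
    have e : tp k [] = fun _ => 0 := by
      funext w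
      exact tp_nil k w
    rw [e]
    simp only [dk, tp_nil, mul_zero]
    exact hasDerivAt_const _ _
  | cons a A ih =>
    have e : tp k (a :: A) = fun w => gc a * ek k w + tp (k + 1) A w := by
      funext w
      exact tp_cons k a A w
    rw [e]
    have h1 := ((hasDerivAt_ek k z).const_mul (gc a)).add (ih (k + 1))
    have e2 : 2 * π * tp k (dk k (a :: A)) z =
        gc a * (dm k * ek k z) + 2 * π * tp (k + 1) (dk (k + 1) A) z := by
      simp only [dk, tp_cons]
      have e3 : gc (-(k * a.2), k * a.1) = I * k * gc a := by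
        unfold gc
        push_cast
        linear_combination (-(k : ℂ) * a.2) * I_mul_I
      rw [e3]
      unfold dm
      ring
    rw [e2]
    exact h1

/-- the width of the strip -/
def m0 : ℝ := Real.log (9 / 8)

theorem m0_pos : 0 < m0 := Real.log_pos (by norm_num)

theorem wt_m0 (k : ℤ) : wt m0 k = (9 / 8 : ℝ) ^ k.natAbs := by
  unfold wt m0
  have h : |(k : ℝ)| = (k.natAbs : ℝ) := by
    rw [Nat.cast_natAbs, Int.cast_abs]
  rw [h, mul_comm, Real.exp_nat_mul, Real.exp_log (by norm_num)]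

theorem wt_m0_le (M : ℕ) (k : ℤ) :
    wt m0 k * 8 ^ M ≤ ((9 ^ k.natAbs * 8 ^ (M - k.natAbs) : ℕ) : ℝ) := by
  rw [wt_m0]
  push_cast
  rw [div_pow, div_mul_eq_mul_div, div_le_iff₀ (by positivity), mul_assoc]
  apply mul_le_mul_of_nonneg_left _ (by positivity)
  rw [← pow_add]
  apply pow_le_pow_right₀ (by norm_num)
  omega

theorem W.ek (μ : ℝ) (k : ℤ) : W μ (wt μ k) (ek k) := by
  refine ⟨fun l => if l = k then 1 else 0, ⟨?_, ?_⟩, ?_⟩
  · apply summable_of_ne_finset_zero (s := {k})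
    intro l hl
    rw [Finset.mem_singleton] at hl
    simp [hl]
  · intro z _
    have : HasSum (fun l : ℤ => (if l = k then 1 else 0) * Pool.Agent.H30KAM.ek l z)
        ((if k = k then 1 else 0) * Pool.Agent.H30KAM.ek k z) := by
      apply hasSum_single
      intro l hl
      simp [hl]
    simpa using this
  · unfold nrm
    rw [tsum_eq_single k]
    · simp
    · intro l hl
      simp [hl]

theorem W.zero (μ : ℝ) : W μ 0 (fun _ => (0 : ℂ)) := by
  have := W.const μ 0
  rwa [norm_zero] at this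

/-- the norm bound of a trigonometric polynomial -/
theorem tp_W (M : ℕ) (k : ℤ) (A : List (ℤ × ℤ)) :
    W m0 ((nI M k A : ℝ) / (12 * 8 ^ M)) (tp k A) := by
  induction A generalizing k with
  | nil =>
    have e : tp k [] = fun _ => 0 := by
      funext w
      exact tp_nil k w
    rw [e]
    simp only [nI, Nat.cast_zero, zero_div]
    exact W.zero _
  | cons a A ih =>
    have e : tp k (a :: A) = fun w => gc a * ek k w + tp (k + 1) A w := by
      funext w
      exact tp_cons k a A w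
    rw [e]
    refine (((W.ek m0 k).smul (gc a)).add (ih (k + 1))).mono ?_
    simp only [nI]
    rw [Nat.cast_add, add_div]
    apply add_le_add _ le_rfl
    rw [le_div_iff₀ (by positivity), Nat.cast_mul]
    have h1 := norm_gc_le a
    have h2 := wt_m0_le M k
    have h3 := wt_pos m0 k
    calc ‖gc a‖ * wt m0 k * (12 * 8 ^ M) = (12 * ‖gc a‖) * (wt m0 k * 8 ^ M) := by ring
      _ ≤ (ab a : ℝ) * _ := mul_le_mul h1 h2 (by positivity) (by positivity)

/-- approximation of the shifted trigonometric polynomial -/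
theorem tp_shift (M : ℕ) {t η c : ℝ} {n : ℕ} {R : ℤ → ℤ × ℤ}
    (hR : ∀ k : ℤ, k.natAbs ≤ n → ‖ek k t - gc (R k) / c‖ ≤ η * k.natAbs) (k : ℤ)
    (A : List (ℤ × ℤ)) (h1 : -(n : ℤ) ≤ k) (h2 : k + A.length ≤ n + 1) :
    W m0 (η * ((nD M k A : ℝ) / (12 * 8 ^ M)))
      (fun z => tp k A (z + t) - tp k (had R k A) z / c) := by
  induction A generalizing k with
  | nil =>
    have e : (fun z => tp k [] (z + t) - tp k (had R k []) z / c) = fun _ => 0 := by
      funext w
      simp [had, tp_nil]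
    rw [e]
    simp only [nD, Nat.cast_zero, zero_div, mul_zero]
    exact W.zero _
  | cons a A ih =>
    have e : (fun z => tp k (a :: A) (z + t) - tp k (had R k (a :: A)) z / c) =
        fun z => (gc a * (ek k t - gc (R k) / c)) * ek k z +
          (tp (k + 1) A (z + t) - tp (k + 1) (had R (k + 1) A) z / c) := by
      funext z
      simp only [had, tp_cons, gc_mul, ek_add_right]
      ring
    rw [e]
    simp only [List.length_cons, Nat.cast_add, Nat.cast_one] at h2
    have hlen : (0 : ℤ) ≤ A.length := Int.natCast_nonneg _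
    have hk : k.natAbs ≤ n := by omega
    have h3 := hR k hk
    have h4 := ih (k + 1) (by omega) (by omega)
    refine (((W.ek m0 k).smul (gc a * (ek k t - gc (R k) / c))).add h4).mono ?_
    simp only [nD]
    rw [Nat.cast_add, add_div, mul_add]
    apply add_le_add _ le_rfl
    rw [← mul_div_assoc, le_div_iff₀ (by positivity), norm_mul, Nat.cast_mul, Nat.cast_mul]
    have h5 := norm_gc_le a
    have h6 := wt_m0_le M k
    have h7 := wt_pos m0 k
    have h8 : (12 * ‖gc a‖) * (wt m0 k * 8 ^ M) ≤ (ab a : ℝ) * _ :=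
      mul_le_mul h5 h6 (by positivity) (by positivity)
    calc ‖gc a‖ * ‖ek k t - gc (R k) / c‖ * wt m0 k * (12 * 8 ^ M)
        = ‖ek k t - gc (R k) / c‖ * ((12 * ‖gc a‖) * (wt m0 k * 8 ^ M)) := by ring
      _ ≤ (η * k.natAbs) * ((ab a : ℝ) * _) :=
          mul_le_mul h3 h8 (by positivity) ((norm_nonneg _).trans h3)
      _ = _ := by ring

theorem avg_ek_ne {k : ℤ} (hk : k ≠ 0) : avg (ek k) = 0 := by
  unfold avg
  rw [integral_ek, if_neg hk]

theorem avg_ek_zero : avg (ek 0) = 1 := by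
  unfold avg
  rw [integral_ek, if_pos rfl]

theorem avg_tp_cons (k : ℤ) (a : ℤ × ℤ) (A : List (ℤ × ℤ)) :
    avg (tp k (a :: A)) = gc a * avg (ek k) + avg (tp (k + 1) A) := by
  have e : tp k (a :: A) = fun w => gc a * ek k w + tp (k + 1) A w := by
    funext w
    exact tp_cons k a A w
  rw [e, avg_add m0_pos ((W.ek m0 k).smul (gc a)) (tp_W 0 (k + 1) A),
    avg_smul m0_pos (gc a) (W.ek m0 k)]

theorem avg_tp_nil (k : ℤ) : avg (tp k []) = 0 := by
  have e : tp k [] = fun _ => 0 := by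
    funext w
    exact tp_nil k w
  rw [e]
  simp [avg]

theorem avg_tp_pos (n : ℕ) (A : List (ℤ × ℤ)) : avg (tp (n + 1) A) = 0 := by
  induction A generalizing n with
  | nil => exact avg_tp_nil _
  | cons a A ih =>
    rw [avg_tp_cons, avg_ek_ne (by omega), mul_zero, zero_add]
    have := ih (n + 1)
    push_cast at this
    exact this

theorem avg_tp (n : ℕ) (A : List (ℤ × ℤ)) : avg (tp (-(n : ℤ)) A) = gc (A.getD n (0, 0)) := by
  induction A generalizing n with
  | nil =>
    rw [avg_tp_nil]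
    simp [gc_zero]
  | cons a A ih =>
    rw [avg_tp_cons]
    cases n with
    | zero =>
      have h := avg_tp_pos 0 A
      simp only [Nat.cast_zero, zero_add] at h
      simp only [Nat.cast_zero, neg_zero, zero_add, h, avg_ek_zero]
      simp
    | succ n =>
      rw [avg_ek_ne (by push_cast; omega), mul_zero, zero_add]
      have e : -((n + 1 : ℕ) : ℤ) + 1 = -(n : ℤ) := by
        push_cast
        ring
      rw [e, ih n]
      simp

/-- reflections -/
theorem W.refl {μ M : ℝ} {F : ℂ → ℂ} (h : W μ M F) : W μ M (fun z => F (-z)) := by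
  obtain ⟨a, ha, hM⟩ := h
  have e : ∀ k : ℤ, ‖a (-k)‖ * wt μ k = ‖a (-k)‖ * wt μ (-k) := by
    intro k
    unfold wt
    simp
  have hsum : HasSum (fun k => ‖a (-k)‖ * wt μ k) (nrm μ a) := by
    simp only [e]
    exact (Equiv.hasSum_iff (Equiv.neg ℤ) (f := fun k => ‖a k‖ * wt μ k)).2 ha.summ.hasSum
  refine ⟨fun k => a (-k), ⟨hsum.summable, ?_⟩, ?_⟩
  · intro z hz
    have hz' : -z ∈ V μ := by
      show 2 * π * |(-z).im| < μ
      rw [Complex.neg_im, abs_neg]
      exact hz
    have h1 := ha.eq (-z) hz'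
    have h2 := (Equiv.hasSum_iff (Equiv.neg ℤ) (f := fun k => a k * Pool.Agent.H30KAM.ek k (-z))).2
      h1
    refine h2.congr_fun ?_
    intro k
    show a (-k) * Pool.Agent.H30KAM.ek k z = a (-k) * Pool.Agent.H30KAM.ek (-k) (-z)
    rw [ek_neg, neg_neg]
  · have : nrm μ (fun k => a (-k)) = nrm μ a := hsum.tsum_eq
    rw [this]
    exact hM

end

end Pool.Agent.H30KAM
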