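import Pool.Agent.H30KAM.Poly

/-!
Approximation of the powers of `exp (i pi theta)`.
-/

set_option autoImplicit false

namespace Pool.Agent.H30KAM

noncomputable section

open Complex Real

theorem sqrt5_lo : 2.236067977499789696409173 < √5 := by
  rw [Real.lt_sqrt (by norm_num)]
  norm_num

theorem sqrt5_hi : √5 < 2.236067977499789696409174 := by
  rw [Real.sqrt_lt' (by norm_num)]
  norm_num

theorem th_lo : 0.01975580482288693554585357 < th := by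
  unfold th
  rw [lt_div_iff₀ Xr_pos]
  have := sqrt5_hi
  unfold Xr
  norm_num at this ⊢
  linarith

theorem th_hi : th < 0.01975580482288693554585359 := by
  unfold th
  rw [div_lt_iff₀ Xr_pos]
  have := sqrt5_lo
  unfold Xr
  norm_num at this ⊢
  linarith

/-- the approximate angle -/
def x0 : ℝ := 0.062064691297335403065464540690

theorem pith : |π * th - x0| ≤ 1.46e-22 := by
  have h1 := Real.pi_gt_d20
  have h2 := Real.pi_lt_d20
  have h3 := th_lo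
  have h4 := th_hi
  have h5 : 3.14159265358979323846 * 0.01975580482288693554585357 ≤ π * th := by
    apply mul_le_mul h1.le h3.le (by norm_num) (by linarith)
  have h6 : π * th ≤ 3.14159265358979323847 * 0.01975580482288693554585359 := by
    apply mul_le_mul h2.le h4.le (by linarith) (by norm_num)
  unfold x0
  rw [abs_le]
  constructor
  · refine le_trans ?_ (sub_le_sub_right h5 _)
    norm_num
  · refine (sub_le_sub_right h6 _).trans ?_
    norm_num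

/-- the Taylor polynomials -/
def Cx : ℝ := 1 - x0 ^ 2 / 2 + x0 ^ 4 / 24 - x0 ^ 6 / 720 + x0 ^ 8 / 40320 - x0 ^ 10 / 3628800 +
  x0 ^ 12 / 479001600

def Sx : ℝ := x0 - x0 ^ 3 / 6 + x0 ^ 5 / 120 - x0 ^ 7 / 5040 + x0 ^ 9 / 362880 - x0 ^ 11 / 39916800

theorem taylor_eq : ∑ m ∈ Finset.range 13, (I * (x0 : ℂ)) ^ m / (m.factorial : ℂ) =
    (Cx : ℂ) + (Sx : ℂ) * I := by
  have i2 : (I : ℂ) ^ 2 = -1 := I_sq
  have i3 : (I : ℂ) ^ 3 = -I := by rw [pow_succ, i2]; ring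
  have i4 : (I : ℂ) ^ 4 = 1 := by rw [pow_succ, i3]; linear_combination -i2
  have i5 : (I : ℂ) ^ 5 = I := by rw [pow_succ, i4]; ring
  have i6 : (I : ℂ) ^ 6 = -1 := by rw [pow_succ, i5]; linear_combination i2
  have i7 : (I : ℂ) ^ 7 = -I := by rw [pow_succ, i6]; ring
  have i8 : (I : ℂ) ^ 8 = 1 := by rw [pow_succ, i7]; linear_combination -i2
  have i9 : (I : ℂ) ^ 9 = I := by rw [pow_succ, i8]; ring
  have i10 : (I : ℂ) ^ 10 = -1 := by rw [pow_succ, i9]; linear_combination i2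
  have i11 : (I : ℂ) ^ 11 = -I := by rw [pow_succ, i10]; ring
  have i12 : (I : ℂ) ^ 12 = 1 := by rw [pow_succ, i11]; linear_combination -i2
  simp only [Finset.sum_range_succ, Finset.sum_range_zero, mul_pow, i2, i3, i4, i5, i6, i7, i8, i9,
    i10, i11, i12, Cx, Sx, pow_zero, pow_one, Nat.factorial]
  push_cast
  ring

/-- the approximate rotation -/
def q1 : ℤ × ℤ := (1265209872382246885763924254544, 78625842351537478305951594079)

theorem cx_close : |Cx - 1265209872382246885763924254544 / 2 ^ 100| ≤ 1e-25 := by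
  unfold Cx x0
  rw [abs_le]
  constructor <;> norm_num

theorem sx_close : |Sx - 78625842351537478305951594079 / 2 ^ 100| ≤ 1e-25 := by
  unfold Sx x0
  rw [abs_le]
  constructor <;> norm_num

theorem norm_re_im (x y : ℝ) : ‖(x : ℂ) + y * I‖ ≤ |x| + |y| := by
  refine (norm_add_le _ _).trans ?_
  rw [norm_mul, Complex.norm_I, mul_one, Complex.norm_real, Complex.norm_real,
    Real.norm_eq_abs, Real.norm_eq_abs]

theorem q1_close : ‖ek 1 ((th / 2 : ℝ) : ℂ) - gc q1 / ((2 ^ 100 : ℝ) : ℂ)‖ ≤ 1.5e-22 := by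
  have e1 : ek 1 ((th / 2 : ℝ) : ℂ) = Complex.exp (I * ((π * th : ℝ) : ℂ)) := by
    unfold ek
    congr 1
    push_cast
    ring
  have h1 : ‖Complex.exp (I * ((π * th : ℝ) : ℂ)) - Complex.exp (I * (x0 : ℂ))‖ ≤ 1.46e-22 := by
    have e2 : Complex.exp (I * ((π * th : ℝ) : ℂ)) - Complex.exp (I * (x0 : ℂ)) =
        Complex.exp (I * (x0 : ℂ)) * (Complex.exp (I * ((π * th - x0 : ℝ) : ℂ)) - 1) := by
      rw [mul_sub, ← Complex.exp_add, mul_one]
      congr 2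
      push_cast
      ring
    rw [e2, norm_mul]
    have e3 : ‖Complex.exp (I * (x0 : ℂ))‖ = 1 := by
      rw [mul_comm]
      exact Complex.norm_exp_ofReal_mul_I _
    rw [e3, one_mul]
    exact (Real.norm_exp_I_mul_ofReal_sub_one_le).trans (by rw [Real.norm_eq_abs]; exact pith)
  have h2 : ‖Complex.exp (I * (x0 : ℂ)) - ((Cx : ℂ) + (Sx : ℂ) * I)‖ ≤ 1e-25 := by
    rw [← taylor_eq]
    have hn : ‖I * (x0 : ℂ)‖ = x0 := by
      rw [norm_mul, Complex.norm_I, one_mul, Complex.norm_real, Real.norm_eq_abs, abs_of_nonneg]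
      unfold x0
      norm_num
    refine (Complex.exp_bound (x := I * (x0 : ℂ)) ?_ (n := 13) (by norm_num)).trans ?_
    · rw [hn]
      unfold x0
      norm_num
    · rw [hn]
      unfold x0
      simp only [Nat.factorial]
      norm_num
  have h3 : ‖((Cx : ℂ) + (Sx : ℂ) * I) - gc q1 / ((2 ^ 100 : ℝ) : ℂ)‖ ≤ 2e-25 := by
    have e4 : ((Cx : ℂ) + (Sx : ℂ) * I) - gc q1 / ((2 ^ 100 : ℝ) : ℂ) =
        ((Cx - 1265209872382246885763924254544 / 2 ^ 100 : ℝ) : ℂ) +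
          ((Sx - 78625842351537478305951594079 / 2 ^ 100 : ℝ) : ℂ) * I := by
      unfold gc q1
      push_cast
      ring
    rw [e4]
    refine (norm_re_im _ _).trans ?_
    have := cx_close
    have := sx_close
    linarith
  rw [e1]
  calc ‖Complex.exp (I * ((π * th : ℝ) : ℂ)) - gc q1 / ((2 ^ 100 : ℝ) : ℂ)‖
      = ‖(Complex.exp (I * ((π * th : ℝ) : ℂ)) - Complex.exp (I * (x0 : ℂ))) +
        (Complex.exp (I * (x0 : ℂ)) - ((Cx : ℂ) + (Sx : ℂ) * I)) +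
        (((Cx : ℂ) + (Sx : ℂ) * I) - gc q1 / ((2 ^ 100 : ℝ) : ℂ))‖ := by
        congr 1
        ring
    _ ≤ 1.46e-22 + 1e-25 + 2e-25 := by
        refine (norm_add_le _ _).trans (add_le_add ((norm_add_le _ _).trans
          (add_le_add h1 h2)) h3)
    _ ≤ _ := by norm_num

theorem q1_norm : ‖gc q1 / ((2 ^ 100 : ℝ) : ℂ)‖ ≤ 1 := by
  rw [norm_div, Complex.norm_real, Real.norm_eq_abs, abs_of_pos (by positivity),
    div_le_one (by positivity), Complex.norm_eq_sqrt_sq_add_sq]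
  apply Real.sqrt_le_iff.2
  refine ⟨by positivity, ?_⟩
  unfold gc q1
  simp only [Complex.add_re, Complex.intCast_re, Complex.mul_re, Complex.I_re, mul_zero,
    Complex.intCast_im, Complex.I_im, mul_one, sub_self, add_zero, Complex.add_im, Complex.mul_im,
    zero_add]
  norm_num

/-- one check of the chain of powers -/
def chk (q : ℤ × ℤ) : ℤ × ℤ → List (ℤ × ℤ) → Bool
  | _, [] => true
  | a, b :: t => Nat.ble (2 ^ 100 * b.1 - (gmul a q).1).natAbs (2 ^ 100) &&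
      (Nat.ble (2 ^ 100 * b.2 - (gmul a q).2).natAbs (2 ^ 100) && chk q b t)

/-- the error of one power -/
def ηq : ℝ := 1.6e-22

theorem chk_one {a b : ℤ} (h : (2 ^ 100 * a - b).natAbs ≤ 2 ^ 100) :
    |(b : ℝ) / (2 ^ 100) ^ 2 - a / 2 ^ 100| ≤ 1 / 2 ^ 100 := by
  have h1 : |(((2 ^ 100 * a - b : ℤ)) : ℝ)| ≤ 2 ^ 100 := by
    rw [← Int.cast_abs, ← Nat.cast_natAbs]
    exact_mod_cast h
  have e : (b : ℝ) / (2 ^ 100) ^ 2 - a / 2 ^ 100 =
      -((((2 ^ 100 * a - b : ℤ)) : ℝ) / (2 ^ 100) ^ 2) := by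
    push_cast
    field_simp
    ring
  rw [e, abs_neg, abs_div, abs_of_pos (show (0 : ℝ) < (2 ^ 100) ^ 2 by positivity),
    div_le_div_iff₀ (by positivity) (by positivity)]
  nlinarith

theorem chk_step {u : ℂ} (hu : ‖u‖ = 1) (hq : ‖u - gc q1 / ((2 ^ 100 : ℝ) : ℂ)‖ ≤ 1.5e-22)
    {n : ℕ} {a b : ℤ × ℤ} (ha : ‖u ^ n - gc a / ((2 ^ 100 : ℝ) : ℂ)‖ ≤ ηq * n)
    (h1 : (2 ^ 100 * b.1 - (gmul a q1).1).natAbs ≤ 2 ^ 100)
    (h2 : (2 ^ 100 * b.2 - (gmul a q1).2).natAbs ≤ 2 ^ 100) :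
    ‖u ^ (n + 1) - gc b / ((2 ^ 100 : ℝ) : ℂ)‖ ≤ ηq * (n + 1 : ℕ) := by
  have h3 := chk_one h1
  have h4 := chk_one h2
  have h5 : ‖gc a / ((2 ^ 100 : ℝ) : ℂ) * (gc q1 / ((2 ^ 100 : ℝ) : ℂ)) -
      gc b / ((2 ^ 100 : ℝ) : ℂ)‖ ≤ 2 / 2 ^ 100 := by
    have e : gc a / ((2 ^ 100 : ℝ) : ℂ) * (gc q1 / ((2 ^ 100 : ℝ) : ℂ)) -
      gc b / ((2 ^ 100 : ℝ) : ℂ) =
        ((((gmul a q1).1 : ℝ) / (2 ^ 100) ^ 2 - b.1 / 2 ^ 100 : ℝ) : ℂ) +
        ((((gmul a q1).2 : ℝ) / (2 ^ 100) ^ 2 - b.2 / 2 ^ 100 : ℝ) : ℂ) * I := by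
      have e1 : gc a / ((2 ^ 100 : ℝ) : ℂ) * (gc q1 / ((2 ^ 100 : ℝ) : ℂ)) =
          gc (gmul a q1) / ((2 ^ 100 : ℝ) : ℂ) ^ 2 := by
        rw [gc_mul]
        ring
      rw [e1]
      unfold gc
      push_cast
      ring
    rw [e]
    refine (norm_re_im _ _).trans ?_
    refine (add_le_add h3 h4).trans (le_of_eq ?_)
    ring
  have e : u ^ (n + 1) - gc b / ((2 ^ 100 : ℝ) : ℂ) =
      u ^ n * (u - gc q1 / ((2 ^ 100 : ℝ) : ℂ)) +
      (u ^ n - gc a / ((2 ^ 100 : ℝ) : ℂ)) * (gc q1 / ((2 ^ 100 : ℝ) : ℂ)) +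
      (gc a / ((2 ^ 100 : ℝ) : ℂ) * (gc q1 / ((2 ^ 100 : ℝ) : ℂ)) -
        gc b / ((2 ^ 100 : ℝ) : ℂ)) := by
    ring
  rw [e]
  have h6 : ‖u ^ n * (u - gc q1 / ((2 ^ 100 : ℝ) : ℂ))‖ ≤ 1.5e-22 := by
    rw [norm_mul, norm_pow, hu, one_pow, one_mul]
    exact hq
  have h7 : ‖(u ^ n - gc a / ((2 ^ 100 : ℝ) : ℂ)) * (gc q1 / ((2 ^ 100 : ℝ) : ℂ))‖ ≤ ηq * n := by
    rw [norm_mul]
    calc _ ≤ ‖u ^ n - gc a / ((2 ^ 100 : ℝ) : ℂ)‖ * 1 :=
          mul_le_mul_of_nonneg_left q1_norm (norm_nonneg _)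
      _ ≤ _ := by rw [mul_one]; exact ha
  refine (norm_add_le _ _).trans ((add_le_add ((norm_add_le _ _).trans (add_le_add h6 h7))
    h5).trans ?_)
  have h8 : (2 : ℝ) / 2 ^ 100 ≤ 1e-23 := by norm_num
  push_cast
  unfold ηq
  linarith

theorem chk_spec {u : ℂ} (hu : ‖u‖ = 1) (hq : ‖u - gc q1 / ((2 ^ 100 : ℝ) : ℂ)‖ ≤ 1.5e-22)
    (t : List (ℤ × ℤ)) (a : ℤ × ℤ) (n : ℕ)
    (ha : ‖u ^ n - gc a / ((2 ^ 100 : ℝ) : ℂ)‖ ≤ ηq * n) (h : chk q1 a t = true) :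
    ∀ j < (a :: t).length, ‖u ^ (n + j) - gc ((a :: t).getD j (0, 0)) / ((2 ^ 100 : ℝ) : ℂ)‖ ≤
      ηq * (n + j : ℕ) := by
  induction t generalizing a n with
  | nil =>
    intro j hj
    have : j = 0 := by
      simp only [List.length_cons, List.length_nil] at hj
      omega
    subst this
    simpa using ha
  | cons b t ih =>
    intro j hj
    simp only [chk, Bool.and_eq_true, Nat.ble_eq] at h
    obtain ⟨h1, h2, h3⟩ := h
    cases j with
    | zero => simpa using ha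
    | succ j =>
      have h4 := ih b (n + 1) (chk_step hu hq ha h1 h2) h3 j (by
        simp only [List.length_cons] at hj ⊢
        omega)
      have e : n + (j + 1) = n + 1 + j := by ring
      rw [e]
      simpa using h4

end

end Pool.Agent.H30KAM
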