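import Pool.Agent.H30KAM.Exact

/-!
One Newton step.
-/

set_option autoImplicit false

namespace Pool.Agent.H30KAM

noncomputable section

open Complex Real

/-- the inverse of the twist function -/
def ik (s : ℝ) (f G : ℂ → ℂ) (z : ℂ) : ℂ :=
  2 * G (z + s) * ((deriv f z)⁻¹ * (deriv f (z + (2 * s : ℝ)))⁻¹)

/-- bounds for an approximate solution -/
structure Nice (s μ P Pm Γ N T : ℝ) (f G : ℂ → ℂ) : Prop where
  f_W : ∃ R, W μ R f
  G_W : ∃ R, W μ R G
  p_W : W μ P (deriv f)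
  p_inv : W μ Pm (fun z => (deriv f z)⁻¹)
  p_ne : ∀ z ∈ V μ, deriv f z ≠ 0
  G_inv : W μ Γ (fun z => (2 * G z)⁻¹)
  G_ne : ∀ z ∈ V μ, G z ≠ 0
  k_W : W μ N (ik s f G)
  k_avg : 1 ≤ T * ‖avg (ik s f G)‖

/-- constants of the Newton step -/
def Cv (P Γ N T S : ℝ) : ℝ := S * ((S * (P * (1 + 2 * Γ))) * (1 + T * N) * N)

def Cu (P Γ N T S : ℝ) : ℝ := P * Cv P Γ N T S

def Cw (P Γ N T S : ℝ) : ℝ := (2 * Cu P Γ N T S + 1) * Γ

/-- the average of the right hand side is quadratically small -/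
theorem avg_g {s μ δ P Γ ε : ℝ} (hδ : 0 < δ) (hμ : 0 < μ - δ) {f G : ℂ → ℂ}
    (hf : ∃ R, W μ R f) (hG : ∃ R, W μ R G) (hp : W μ P (deriv f))
    (hGi : W μ Γ (fun z => (2 * G z)⁻¹)) (hGne : ∀ z ∈ V μ, G z ≠ 0)
    (h1 : W μ ε (er1 s f G)) (h2 : W μ ε (er2 s f G)) :
    ‖avg (fun z => -(deriv f z * (er2 s f G z + (er1 s f G (z + s) * (2 * G (z + s))⁻¹ -
      er1 s f G (z - s) * (2 * G (z - s))⁻¹))))‖ ≤ (ε * (Dc δ * ε)) * Γ := by
  obtain ⟨R, hf⟩ := hf
  obtain ⟨R', hG⟩ := hG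
  have hμ0 : 0 < μ := by linarith
  have hle : μ - δ ≤ μ := by linarith
  have hq := hG.deriv hδ
  have hX : W μ (ε * Γ) (fun z => er1 s f G z * (2 * G z)⁻¹) := h1.mul hμ0.le hGi
  have hX' := hX.mono_strip hle
  have hp' := hp.mono_strip hle
  have h1' := h1.mono_strip hle
  have h2' := h2.mono_strip hle
  have hf' := hf.mono_strip hle
  have hG' := hG.mono_strip hle
  have hd1 := h1.deriv hδ
  -- summation by parts
  have b1 : avg (fun z => deriv f z * (er1 s f G (z + s) * (2 * G (z + s))⁻¹)) =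
      avg (fun z => deriv f (z - s) * (er1 s f G z * (2 * G z)⁻¹)) := by
    have h := avg_shift_mul hμ (hp'.shift_sub s) hX' s
    have hh := avg_shift hμ ((hp'.shift_sub s).mul hμ.le hX') s
    rw [← hh]
    congr 1
    ext z
    simp only [add_sub_cancel_right]
  have b2 : avg (fun z => deriv f z * (er1 s f G (z - s) * (2 * G (z - s))⁻¹)) =
      avg (fun z => deriv f (z + s) * (er1 s f G z * (2 * G z)⁻¹)) :=
    (avg_shift_mul hμ hp' hX' s).symm
  have hkey : avg (fun z => -(deriv f z * (er2 s f G z + (er1 s f G (z + s) * (2 * G (z + s))⁻¹ -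
      er1 s f G (z - s) * (2 * G (z - s))⁻¹)))) =
      avg (fun z => er1 s f G z * deriv (er1 s f G) z * (2 * G z)⁻¹) := by
    have w1 := hp'.mul hμ.le h2'
    have w2 := hp'.mul hμ.le (hX'.shift s)
    have w3 := hp'.mul hμ.le (hX'.shift_sub s)
    have e : (fun z => -(deriv f z * (er2 s f G z + (er1 s f G (z + s) * (2 * G (z + s))⁻¹ -
        er1 s f G (z - s) * (2 * G (z - s))⁻¹)))) = fun z =>
        ((deriv f z * (er1 s f G (z - s) * (2 * G (z - s))⁻¹) -
          deriv f z * (er1 s f G (z + s) * (2 * G (z + s))⁻¹)) - deriv f z * er2 s f G z) := by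
      ext z
      ring
    rw [e, avg_sub hμ (w3.sub w2) w1, avg_sub hμ w3 w2, b1, b2]
    have w4 := (hp'.shift s).mul hμ.le hX'
    have w5 := (hp'.shift_sub s).mul hμ.le hX'
    rw [← avg_sub hμ w4 w5]
    have e2 : avg (fun z => deriv f (z + s) * (er1 s f G z * (2 * G z)⁻¹) -
        deriv f (z - s) * (er1 s f G z * (2 * G z)⁻¹)) =
        avg (fun z => er1 s f G z * deriv G z +
          er1 s f G z * deriv (er1 s f G) z * (2 * G z)⁻¹) := by
      apply avg_congr hμ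
      intro z hz
      have hz' := V_mono hle hz
      rw [deriv_er1 hf hG hz']
      have := hGne z hz'
      field_simp
      ring
    have w6 := h1'.mul hμ.le hq
    have w7 := (h1'.mul hμ.le hd1).mul hμ.le (hGi.mono_strip hle)
    rw [e2, avg_add hμ w6 w7]
    have h3 := exactness (s := s) hμ0 hf hG
    have w8 := h2'.mul hμ.le hp'
    rw [avg_sub hμ w6 w8] at h3
    have e3 : (fun z => deriv f z * er2 s f G z) = fun z => er2 s f G z * deriv f z := by
      ext z
      ring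
    rw [e3]
    linear_combination h3
  rw [hkey]
  exact ((h1'.mul hμ.le hd1).mul hμ.le (hGi.mono_strip hle)).norm_avg_le hμ

/-- the Newton step -/
theorem newton {s A B μ δ P Pm Γ N T ε : ℝ} (hA : 0 ≤ A) (hB : 0 ≤ B) (hdio : Dio (2 * s) A B)
    (hδ : 0 < δ) (hμ : 0 < μ - δ - δ) (hT : 0 ≤ T) {f G : ℂ → ℂ}
    (hN : Nice s μ P Pm Γ N T f G) (h1 : W μ ε (er1 s f G)) (h2 : W μ ε (er2 s f G)) :
    ∃ u w : ℂ → ℂ, W (μ - δ - δ) (Cu P Γ N T (Sc A B δ) * ε) u ∧
      W (μ - δ - δ) (Cw P Γ N T (Sc A B δ) * ε) w ∧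
      W (μ - δ - δ) ((Cw P Γ N T (Sc A B δ) * ε) ^ 2)
        (er1 s (fun z => f z + u z) (fun z => G z + w z)) ∧
      W (μ - δ - δ) (((ε * (Dc δ * ε)) * Γ) * Pm + (Cv P Γ N T (Sc A B δ) * ε) *
          (Dc δ * ε + ((Dc δ * ε) * Γ + (Dc δ * ε) * Γ)) + (Cu P Γ N T (Sc A B δ) * ε) ^ 2)
        (er2 s (fun z => f z + u z) (fun z => G z + w z)) := by
  obtain ⟨R, hf⟩ := hN.f_W
  obtain ⟨R', hG⟩ := hN.G_W
  have hp := hN.p_W
  have hpi := hN.p_inv
  have hGi := hN.G_inv
  have hμ0 : 0 < μ := by linarith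
  have hμ1 : 0 < μ - δ := by linarith
  have hle1 : μ - δ ≤ μ := by linarith
  have hle2 : μ - δ - δ ≤ μ := by linarith
  have hle3 : μ - δ - δ ≤ μ - δ := by linarith
  have hΓ : 0 ≤ Γ := hGi.nonneg
  have hP : 0 ≤ P := hp.nonneg
  have hNn : 0 ≤ N := hN.k_W.nonneg
  have hε : 0 ≤ ε := h1.nonneg
  have hS : 0 ≤ Sc A B δ := by unfold Sc; positivity
  set S := Sc A B δ with hSdef
  have hX : W μ (ε * Γ) (fun z => er1 s f G z * (2 * G z)⁻¹) := h1.mul hμ0.le hGi
  -- the right hand side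
  let g : ℂ → ℂ := fun z => -(deriv f z * (er2 s f G z + (er1 s f G (z + s) * (2 * G (z + s))⁻¹ -
      er1 s f G (z - s) * (2 * G (z - s))⁻¹)))
  have hg : W μ ((P * (1 + 2 * Γ)) * ε) g := by
    have := (hp.mul hμ0.le (h2.add ((hX.shift s).sub (hX.shift_sub s)))).neg
    apply this.mono
    apply le_of_eq
    ring
  have hgavg : ‖avg g‖ ≤ (ε * (Dc δ * ε)) * Γ :=
    avg_g hδ hμ1 hN.f_W hN.G_W hp hGi hN.G_ne h1 h2
  obtain ⟨ψ₀, hψ₀, hψ₀eq⟩ := W.sd hA hB hdio hδ hμ0 hg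
  set ψ : ℂ → ℂ := fun z => ψ₀ (z + (2 * s : ℝ)) with hψdef
  have hψ : W (μ - δ) (S * ((P * (1 + 2 * Γ)) * ε)) ψ := hψ₀.shift _
  have hψeq : ∀ z ∈ V (μ - δ), ψ z - ψ (z - (2 * s : ℝ)) = g z - avg g := by
    intro z hz
    have := hψ₀eq z hz
    simp only [hψdef, sub_add_cancel]
    exact this
  set J := ik s f G with hJ
  have hJW : W (μ - δ) N J := hN.k_W.mono_strip hle1
  have hJavg : avg J ≠ 0 := by
    intro h
    have := hN.k_avg
    rw [← hJ, h, norm_zero, mul_zero] at this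
    linarith
  have hψJ := hψ.mul hμ1.le hJW
  set Ψ := S * ((P * (1 + 2 * Γ)) * ε) with hΨ
  have hΨ0 : 0 ≤ Ψ := by positivity
  set c₀ : ℂ := -avg (fun z => ψ z * J z) / avg J with hc₀
  have hc₀n : ‖c₀‖ ≤ T * (Ψ * N) := by
    rw [hc₀, norm_div, norm_neg]
    have h3 := hψJ.norm_avg_le hμ1
    have h4 := hN.k_avg
    have h5 : 0 < ‖avg J‖ := norm_pos_iff.2 hJavg
    rw [div_le_iff₀ h5]
    calc ‖avg fun z => ψ z * J z‖ ≤ Ψ * N := h3
      _ = (Ψ * N) * 1 := by ring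
      _ ≤ (Ψ * N) * (T * ‖avg J‖) := mul_le_mul_of_nonneg_left h4 (by positivity)
      _ = _ := by ring
  let k : ℂ → ℂ := fun z => (ψ z + c₀) * J z
  have hk : W (μ - δ) ((Ψ + T * (Ψ * N)) * N) k :=
    (hψ.add ((W.const (μ - δ) c₀).mono hc₀n)).mul hμ1.le hJW
  have hkavg : avg k = 0 := by
    have e : k = fun z => ψ z * J z + c₀ * J z := by
      ext z
      show (ψ z + c₀) * J z = _
      ring
    rw [e, avg_add hμ1 hψJ (hJW.smul c₀), avg_smul hμ1 c₀ hJW, hc₀]
    field_simp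
    ring
  obtain ⟨v, hv, hveq⟩ := W.sd hA hB hdio hδ hμ1 hk
  rw [hkavg] at hveq
  simp only [sub_zero] at hveq
  have hv' : W (μ - δ - δ) (Cv P Γ N T S * ε) v := by
    apply hv.mono
    apply le_of_eq
    unfold Cv
    rw [hΨ]
    ring
  have hCv0 : 0 ≤ Cv P Γ N T S * ε := hv'.nonneg
  let u : ℂ → ℂ := fun z => deriv f z * v z
  have hu : W (μ - δ - δ) (Cu P Γ N T S * ε) u := by
    have := (hp.mono_strip hle2).mul hμ.le hv'
    apply this.mono
    apply le_of_eq
    unfold Cu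
    ring
  let w : ℂ → ℂ := fun z => (u (z + s) - u (z - s) + er1 s f G z) * (2 * G z)⁻¹
  have hw : W (μ - δ - δ) (Cw P Γ N T S * ε) w := by
    have := (((hu.shift s).sub (hu.shift_sub s)).add (h1.mono_strip hle2)).mul hμ.le
      (hGi.mono_strip hle2)
    apply this.mono
    apply le_of_eq
    unfold Cw
    ring
  refine ⟨u, w, hu, hw, ?_, ?_⟩
  · -- the first error
    have h3 := (hw.pow hμ.le 2).neg
    apply h3.congr
    intro z hz
    have hz' := V_mono hle2 hz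
    have hGz := hN.G_ne z hz'
    show -(w z) ^ 2 = (f (z + s) + u (z + s)) - (f (z - s) + u (z - s)) - (G z + w z) ^ 2
    have h4 : 2 * G z * w z = u (z + s) - u (z - s) + er1 s f G z := by
      show 2 * G z * ((u (z + s) - u (z - s) + er1 s f G z) * (2 * G z)⁻¹) = _
      field_simp
    have h5 : er1 s f G z = f (z + s) - f (z - s) - G z ^ 2 := rfl
    rw [h5] at h4
    linear_combination h4
  · -- the second error
    have hd1 : W (μ - δ - δ) (Dc δ * ε) (deriv (er1 s f G)) := (h1.deriv hδ).mono_strip hle3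
    have hd2 : W (μ - δ - δ) (Dc δ * ε) (deriv (er2 s f G)) := (h2.deriv hδ).mono_strip hle3
    have hGi2 := hGi.mono_strip hle2
    have hY := hd1.mul hμ.le hGi2
    have h3 := (((((W.const (μ - δ - δ) (avg g)).mono hgavg).neg).mul hμ.le
      (hpi.mono_strip hle2)).add (hv'.mul hμ.le (hd2.add ((hY.shift s).sub
        (hY.shift_sub s))))).sub (hu.pow hμ.le 2)
    apply h3.congr
    intro z hz
    have hz' := V_mono hle2 hz
    have hz1 := V_mono hle3 hz
    have hzp := add_real_mem_V hz' s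
    have hzm := sub_real_mem_V hz' s
    have hz2p : z + (2 * s : ℝ) ∈ V μ := add_real_mem_V hz' _
    have hz2m : z - (2 * s : ℝ) ∈ V μ := sub_real_mem_V hz' _
    have hG0 := hN.G_ne z hz'
    have hGp := hN.G_ne _ hzp
    have hGm := hN.G_ne _ hzm
    have hp0 := hN.p_ne z hz'
    have hp2 := hN.p_ne _ hz2p
    have hp2m := hN.p_ne _ hz2m
    have ep : z + (s : ℂ) + s = z + (2 * s : ℝ) := by push_cast; ring
    have em : z - (s : ℂ) - s = z - (2 * s : ℝ) := by push_cast; ring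
    have epm : z + (s : ℂ) - s = z := by ring
    have emp : z - (s : ℂ) + s = z := by ring
    -- derivative identities
    have d1p := deriv_er1 (s := s) hf hG hzp
    have d1m := deriv_er1 (s := s) hf hG hzm
    have d2 := deriv_er1 (s := s) hG hf hz'
    rw [ep, epm] at d1p
    rw [em, emp] at d1m
    rw [← er2_eq] at d2
    -- the equation for v
    have v1 := hveq z hz
    have v2 := hveq (z - (2 * s : ℝ)) (sub_real_mem_V hz _)
    have v3 := hψeq z hz1
    rw [sub_add_cancel] at v2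
    have k1 : k z = (ψ z + c₀) * (2 * G (z + s) * ((deriv f z)⁻¹ *
      (deriv f (z + (2 * s : ℝ)))⁻¹)) := rfl
    have k2 : k (z - (2 * s : ℝ)) = (ψ (z - (2 * s : ℝ)) + c₀) * (2 * G (z - s) *
        ((deriv f (z - (2 * s : ℝ)))⁻¹ * (deriv f z)⁻¹)) := by
      show (ψ (z - (2 * s : ℝ)) + c₀) * (2 * G (z - (2 * s : ℝ) + s) *
        ((deriv f (z - (2 * s : ℝ)))⁻¹ * (deriv f (z - (2 * s : ℝ) + (2 * s : ℝ)))⁻¹)) = _
      have e1 : z - ((2 * s : ℝ) : ℂ) + s = z - s := by push_cast; ring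
      rw [e1, sub_add_cancel]
    rw [k1] at v1
    rw [k2] at v2
    -- values
    have gz : g z = -(deriv f z * (er2 s f G z + (er1 s f G (z + s) * (2 * G (z + s))⁻¹ -
      er1 s f G (z - s) * (2 * G (z - s))⁻¹))) := rfl
    rw [gz] at v3
    have wp : w (z + s) = (deriv f (z + (2 * s : ℝ)) * v (z + (2 * s : ℝ)) - deriv f z * v z +
        er1 s f G (z + s)) * (2 * G (z + s))⁻¹ := by
      show (deriv f (z + s + s) * v (z + s + s) - deriv f (z + s - s) * v (z + s - s) +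
        er1 s f G (z + s)) * (2 * G (z + s))⁻¹ = _
      rw [ep, epm]
    have wm : w (z - s) = (deriv f z * v z - deriv f (z - (2 * s : ℝ)) * v (z - (2 * s : ℝ)) +
        er1 s f G (z - s)) * (2 * G (z - s))⁻¹ := by
      show (deriv f (z - s + s) * v (z - s + s) - deriv f (z - s - s) * v (z - s - s) +
        er1 s f G (z - s)) * (2 * G (z - s))⁻¹ = _
      rw [em, emp]
    show -avg g * (deriv f z)⁻¹ + v z * (deriv (er2 s f G) z +
      (deriv (er1 s f G) (z + s) * (2 * G (z + s))⁻¹ -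
        deriv (er1 s f G) (z - s) * (2 * G (z - s))⁻¹)) - (deriv f z * v z) ^ 2 =
      (G (z + s) + w (z + s)) - (G (z - s) + w (z - s)) - (f z + deriv f z * v z) ^ 2
    rw [wp, wm, d1p, d1m, d2]
    have he2 : er2 s f G z = G (z + s) - G (z - s) - f z ^ 2 := rfl
    rw [he2] at v3
    generalize deriv f z = p0 at *
    generalize deriv f (z + (2 * s : ℝ)) = pp at *
    generalize deriv f (z - (2 * s : ℝ)) = pm at *
    generalize G (z + s) = Gp at *
    generalize G (z - s) = Gm at *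
    generalize er1 s f G (z + s) = ep1 at *
    generalize er1 s f G (z - s) = em1 at *
    generalize v (z + (2 * s : ℝ)) = vp at *
    generalize v (z - (2 * s : ℝ)) = vm at *
    generalize v z = v0 at *
    generalize ψ z = ps0 at *
    generalize ψ (z - (2 * s : ℝ)) = psm at *
    generalize deriv G (z + s) = qp at *
    generalize deriv G (z - s) = qm at *
    generalize avg g = ag at *
    generalize f z = f0 at *
    have v1' : (vp - v0) * (p0 * pp) = (ps0 + c₀) * (2 * Gp) := by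
      rw [v1]
      field_simp
    have v2' : (v0 - vm) * (pm * p0) = (psm + c₀) * (2 * Gm) := by
      rw [v2]
      field_simp
    have v3' : (ps0 - psm) = -(p0 * ((Gp - Gm - f0 ^ 2) + (ep1 * (2 * Gp)⁻¹ -
      em1 * (2 * Gm)⁻¹))) - ag := v3
    have ha : 2 * Gp * (2 * Gp)⁻¹ = 1 := mul_inv_cancel₀ (mul_ne_zero two_ne_zero hGp)
    have hb : 2 * Gm * (2 * Gm)⁻¹ = 1 := mul_inv_cancel₀ (mul_ne_zero two_ne_zero hGm)
    have hc : p0 * p0⁻¹ = 1 := mul_inv_cancel₀ hp0
    generalize (2 * Gp)⁻¹ = a at *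
    generalize (2 * Gm)⁻¹ = b at *
    apply mul_left_cancel₀ hp0
    generalize p0⁻¹ = pi0 at *
    linear_combination (-a) * v1' + b * v2' - v3' - (ps0 + c₀) * ha + (psm + c₀) * hb -
      ag * hc - p0 * v0 * qp * ha + p0 * v0 * qm * hb

end

end Pool.Agent.H30KAM
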