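import Mathlib

/-!
Functions on a strip given by absolutely convergent Fourier series.
-/

set_option autoImplicit false

namespace Pool.Agent.H30KAM

noncomputable section

open Complex Real

/-- the exponential `exp (2 pi i k z)` -/
def ek (k : ℤ) (z : ℂ) : ℂ := Complex.exp (2 * π * I * k * z)

theorem ek_zero (z : ℂ) : ek 0 z = 1 := by simp [ek]

theorem ek_add_left (k l : ℤ) (z : ℂ) : ek (k + l) z = ek k z * ek l z := by
  unfold ek
  rw [← Complex.exp_add]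
  congr 1
  push_cast
  ring

theorem ek_add_right (k : ℤ) (z w : ℂ) : ek k (z + w) = ek k z * ek k w := by
  unfold ek
  rw [← Complex.exp_add]
  congr 1
  ring

theorem ek_one (k : ℤ) : ek k 1 = 1 := by
  unfold ek
  rw [mul_one, Complex.exp_eq_one_iff]
  exact ⟨k, by ring⟩

theorem ek_ne_zero (k : ℤ) (z : ℂ) : ek k z ≠ 0 := Complex.exp_ne_zero _

theorem norm_ek (k : ℤ) (z : ℂ) : ‖ek k z‖ = Real.exp (-(2 * π * k * z.im)) := by
  unfold ek
  rw [Complex.norm_exp]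
  congr 1
  simp

theorem norm_ek_real (k : ℤ) (t : ℝ) : ‖ek k (t : ℂ)‖ = 1 := by
  rw [norm_ek]
  simp

/-- the strip -/
def V (μ : ℝ) : Set ℂ := {z | 2 * π * |z.im| < μ}

theorem isOpen_V (μ : ℝ) : IsOpen (V μ) :=
  isOpen_lt (by fun_prop) continuous_const

theorem V_mono {μ ν : ℝ} (h : ν ≤ μ) : V ν ⊆ V μ := fun _ hz => lt_of_lt_of_le hz h

theorem V_convex (μ : ℝ) : Convex ℝ (V μ) := by
  have hpi := Real.pi_pos
  have : V μ = Complex.imCLM ⁻¹' (Set.Ioo (-(μ / (2 * π))) (μ / (2 * π))) := by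
    ext z
    simp only [V, Set.mem_preimage, Set.mem_Ioo, Complex.imCLM_apply]
    show 2 * π * |z.im| < μ ↔ _
    rw [← abs_lt, lt_div_iff₀ (by positivity), mul_comm]
  rw [this]
  exact (convex_Ioo _ _).linear_preimage Complex.imCLM.toLinearMap

theorem real_mem_V {μ : ℝ} (h : 0 < μ) (t : ℝ) : (t : ℂ) ∈ V μ := by
  show 2 * π * |(t : ℂ).im| < μ
  simpa using h

theorem add_real_mem_V {μ : ℝ} {z : ℂ} (hz : z ∈ V μ) (t : ℝ) : z + t ∈ V μ := by
  show 2 * π * |(z + t).im| < μ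
  have : (z + (t : ℂ)).im = z.im := by simp
  rw [this]
  exact hz

theorem sub_real_mem_V {μ : ℝ} {z : ℂ} (hz : z ∈ V μ) (t : ℝ) : z - t ∈ V μ := by
  show 2 * π * |(z - t).im| < μ
  have : (z - (t : ℂ)).im = z.im := by simp
  rw [this]
  exact hz

/-- the weight -/
def wt (μ : ℝ) (k : ℤ) : ℝ := Real.exp (μ * |(k : ℝ)|)

theorem wt_pos (μ : ℝ) (k : ℤ) : 0 < wt μ k := Real.exp_pos _

theorem wt_ge_one {μ : ℝ} (h : 0 ≤ μ) (k : ℤ) : 1 ≤ wt μ k := by
  unfold wt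
  rw [← Real.exp_zero]
  apply Real.exp_le_exp.2
  positivity

theorem wt_mono {μ ν : ℝ} (h : ν ≤ μ) (k : ℤ) : wt ν k ≤ wt μ k := by
  unfold wt
  apply Real.exp_le_exp.2
  exact mul_le_mul_of_nonneg_right h (abs_nonneg _)

theorem wt_add_le {μ : ℝ} (h : 0 ≤ μ) (k l : ℤ) : wt μ (k + l) ≤ wt μ k * wt μ l := by
  unfold wt
  rw [← Real.exp_add]
  apply Real.exp_le_exp.2
  rw [← mul_add]
  apply mul_le_mul_of_nonneg_left _ h
  push_cast
  exact abs_add_le _ _

theorem wt_zero (μ : ℝ) : wt μ 0 = 1 := by simp [wt]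

theorem norm_ek_le {μ : ℝ} {z : ℂ} (hz : z ∈ V μ) (k : ℤ) : ‖ek k z‖ ≤ wt μ k := by
  rw [norm_ek, wt]
  apply Real.exp_le_exp.2
  have h1 : 2 * π * |z.im| < μ := hz
  have h2 : -(2 * π * k * z.im) ≤ |2 * π * k * z.im| := neg_le_abs _
  have hpi := Real.pi_pos
  have h3 : |2 * π * k * z.im| = (2 * π * |z.im|) * |(k : ℝ)| := by
    rw [abs_mul, abs_mul, abs_mul, abs_two, abs_of_pos hpi]
    ring
  rw [h3] at h2
  exact h2.trans (mul_le_mul_of_nonneg_right h1.le (abs_nonneg _))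

/-- `F` is given on the strip by the absolutely convergent series with coefficients `a` -/
structure Rep (μ : ℝ) (F : ℂ → ℂ) (a : ℤ → ℂ) : Prop where
  summ : Summable fun k => ‖a k‖ * wt μ k
  eq : ∀ z ∈ V μ, HasSum (fun k => a k * ek k z) (F z)

/-- the weighted norm of a sequence -/
def nrm (μ : ℝ) (a : ℤ → ℂ) : ℝ := ∑' k, ‖a k‖ * wt μ k

theorem nrm_nonneg (μ : ℝ) (a : ℤ → ℂ) : 0 ≤ nrm μ a :=
  tsum_nonneg fun k => mul_nonneg (norm_nonneg _) (wt_pos μ k).le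

/-- the predicate: `F` has a representation with norm at most `M` -/
def W (μ M : ℝ) (F : ℂ → ℂ) : Prop := ∃ a, Rep μ F a ∧ nrm μ a ≤ M

theorem summable_ek {μ : ℝ} {a : ℤ → ℂ} (h : Summable fun k => ‖a k‖ * wt μ k) {z : ℂ}
    (hz : z ∈ V μ) : Summable fun k => a k * ek k z := by
  apply Summable.of_norm_bounded h
  intro k
  rw [norm_mul]
  exact mul_le_mul_of_nonneg_left (norm_ek_le hz k) (norm_nonneg _)

theorem Rep.norm_le {μ : ℝ} {F : ℂ → ℂ} {a : ℤ → ℂ} (h : Rep μ F a) {z : ℂ} (hz : z ∈ V μ) :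
    ‖F z‖ ≤ nrm μ a := by
  have h1 := h.eq z hz
  rw [← h1.tsum_eq]
  have hs : Summable fun k => ‖a k * ek k z‖ := by
    apply Summable.of_nonneg_of_le (fun k => norm_nonneg _) _ h.summ
    intro k
    rw [norm_mul]
    exact mul_le_mul_of_nonneg_left (norm_ek_le hz k) (norm_nonneg _)
  refine (norm_tsum_le_tsum_norm hs).trans ?_
  apply hs.tsum_le_tsum _ h.summ
  intro k
  rw [norm_mul]
  exact mul_le_mul_of_nonneg_left (norm_ek_le hz k) (norm_nonneg _)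

theorem W.norm_le {μ M : ℝ} {F : ℂ → ℂ} (h : W μ M F) {z : ℂ} (hz : z ∈ V μ) : ‖F z‖ ≤ M := by
  obtain ⟨a, ha, hM⟩ := h
  exact (ha.norm_le hz).trans hM

theorem W.nonneg {μ M : ℝ} {F : ℂ → ℂ} (h : W μ M F) : 0 ≤ M := by
  obtain ⟨a, _, hM⟩ := h
  exact (nrm_nonneg μ a).trans hM

theorem W.mono {μ M N : ℝ} {F : ℂ → ℂ} (h : W μ M F) (hMN : M ≤ N) : W μ N F := by
  obtain ⟨a, ha, hM⟩ := h
  exact ⟨a, ha, hM.trans hMN⟩

theorem Rep.mono {μ ν : ℝ} {F : ℂ → ℂ} {a : ℤ → ℂ} (h : Rep μ F a) (hν : ν ≤ μ) : Rep ν F a where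
  summ := by
    apply Summable.of_nonneg_of_le (fun k => mul_nonneg (norm_nonneg _) (wt_pos ν k).le) _ h.summ
    intro k
    exact mul_le_mul_of_nonneg_left (wt_mono hν k) (norm_nonneg _)
  eq := fun z hz => h.eq z (V_mono hν hz)

theorem nrm_mono {μ ν : ℝ} {a : ℤ → ℂ} (h : Summable fun k => ‖a k‖ * wt μ k) (hν : ν ≤ μ) :
    nrm ν a ≤ nrm μ a := by
  apply Summable.tsum_le_tsum _ _ h
  · intro k
    exact mul_le_mul_of_nonneg_left (wt_mono hν k) (norm_nonneg _)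
  · apply Summable.of_nonneg_of_le (fun k => mul_nonneg (norm_nonneg _) (wt_pos ν k).le) _ h
    intro k
    exact mul_le_mul_of_nonneg_left (wt_mono hν k) (norm_nonneg _)

theorem W.mono_strip {μ ν M : ℝ} {F : ℂ → ℂ} (h : W μ M F) (hν : ν ≤ μ) : W ν M F := by
  obtain ⟨a, ha, hM⟩ := h
  exact ⟨a, ha.mono hν, (nrm_mono ha.summ hν).trans hM⟩

theorem Rep.congr {μ : ℝ} {F G : ℂ → ℂ} {a : ℤ → ℂ} (h : Rep μ F a) (hFG : ∀ z ∈ V μ, F z = G z) :
    Rep μ G a where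
  summ := h.summ
  eq := fun z hz => by
    rw [← hFG z hz]
    exact h.eq z hz

theorem W.congr {μ M : ℝ} {F G : ℂ → ℂ} (h : W μ M F) (hFG : ∀ z ∈ V μ, F z = G z) : W μ M G := by
  obtain ⟨a, ha, hM⟩ := h
  exact ⟨a, ha.congr hFG, hM⟩

theorem Rep.add {μ : ℝ} {F G : ℂ → ℂ} {a b : ℤ → ℂ} (hF : Rep μ F a) (hG : Rep μ G b) :
    Rep μ (fun z => F z + G z) (fun k => a k + b k) where
  summ := by
    apply Summable.of_nonneg_of_le (fun k => mul_nonneg (norm_nonneg _) (wt_pos μ k).le) _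
      (hF.summ.add hG.summ)
    intro k
    rw [← add_mul]
    exact mul_le_mul_of_nonneg_right (norm_add_le _ _) (wt_pos μ k).le
  eq := fun z hz => by
    have := (hF.eq z hz).add (hG.eq z hz)
    simpa only [add_mul] using this

theorem nrm_add {μ : ℝ} {a b : ℤ → ℂ} (ha : Summable fun k => ‖a k‖ * wt μ k)
    (hb : Summable fun k => ‖b k‖ * wt μ k) : nrm μ (fun k => a k + b k) ≤ nrm μ a + nrm μ b := by
  unfold nrm
  rw [← ha.tsum_add hb]
  apply Summable.tsum_le_tsum _ _ (ha.add hb)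
  · intro k
    rw [← add_mul]
    exact mul_le_mul_of_nonneg_right (norm_add_le _ _) (wt_pos μ k).le
  · apply Summable.of_nonneg_of_le (fun k => mul_nonneg (norm_nonneg _) (wt_pos μ k).le) _
      (ha.add hb)
    intro k
    rw [← add_mul]
    exact mul_le_mul_of_nonneg_right (norm_add_le _ _) (wt_pos μ k).le

theorem W.add {μ M N : ℝ} {F G : ℂ → ℂ} (hF : W μ M F) (hG : W μ N G) :
    W μ (M + N) (fun z => F z + G z) := by
  obtain ⟨a, ha, hM⟩ := hF
  obtain ⟨b, hb, hN⟩ := hG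
  exact ⟨_, ha.add hb, (nrm_add ha.summ hb.summ).trans (add_le_add hM hN)⟩

theorem Rep.smul {μ : ℝ} {F : ℂ → ℂ} {a : ℤ → ℂ} (c : ℂ) (hF : Rep μ F a) :
    Rep μ (fun z => c * F z) (fun k => c * a k) where
  summ := by
    have := hF.summ.mul_left ‖c‖
    simpa only [norm_mul, mul_assoc] using this
  eq := fun z hz => by
    have := (hF.eq z hz).mul_left c
    simpa only [mul_assoc] using this

theorem nrm_smul (μ : ℝ) (a : ℤ → ℂ) (c : ℂ) : nrm μ (fun k => c * a k) = ‖c‖ * nrm μ a := by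
  unfold nrm
  rw [← tsum_mul_left]
  congr 1
  ext k
  rw [norm_mul, mul_assoc]

theorem W.smul {μ M : ℝ} {F : ℂ → ℂ} (c : ℂ) (hF : W μ M F) :
    W μ (‖c‖ * M) (fun z => c * F z) := by
  obtain ⟨a, ha, hM⟩ := hF
  refine ⟨_, ha.smul c, ?_⟩
  rw [nrm_smul]
  exact mul_le_mul_of_nonneg_left hM (norm_nonneg _)

theorem W.neg {μ M : ℝ} {F : ℂ → ℂ} (hF : W μ M F) : W μ M (fun z => -F z) := by
  have := hF.smul (-1)
  simpa using this

theorem W.sub {μ M N : ℝ} {F G : ℂ → ℂ} (hF : W μ M F) (hG : W μ N G) :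
    W μ (M + N) (fun z => F z - G z) := by
  have := hF.add hG.neg
  simpa only [sub_eq_add_neg] using this

theorem Rep.const (μ : ℝ) (c : ℂ) : Rep μ (fun _ => c) (fun k => if k = 0 then c else 0) where
  summ := by
    apply summable_of_ne_finset_zero (s := {0})
    intro k hk
    rw [Finset.mem_singleton] at hk
    simp [hk]
  eq := fun z _ => by
    have : HasSum (fun k : ℤ => (if k = 0 then c else 0) * ek k z)
        ((if (0 : ℤ) = 0 then c else 0) * ek 0 z) := by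
      apply hasSum_single
      intro k hk
      simp [hk]
    simpa [ek_zero] using this

theorem W.const (μ : ℝ) (c : ℂ) : W μ ‖c‖ (fun _ => c) := by
  refine ⟨_, Rep.const μ c, ?_⟩
  unfold nrm
  rw [tsum_eq_single 0]
  · simp [wt_zero]
  · intro k hk
    simp [hk]

/-- shift by a real number -/
theorem Rep.shift {μ : ℝ} {F : ℂ → ℂ} {a : ℤ → ℂ} (hF : Rep μ F a) (t : ℝ) :
    Rep μ (fun z => F (z + t)) (fun k => a k * ek k t) where
  summ := by
    simpa only [norm_mul, norm_ek_real, mul_one] using hF.summ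
  eq := fun z hz => by
    have := hF.eq (z + t) (add_real_mem_V hz t)
    simp only [ek_add_right] at this
    convert this using 2
    ring

theorem nrm_shift (μ : ℝ) (a : ℤ → ℂ) (t : ℝ) : nrm μ (fun k => a k * ek k t) = nrm μ a := by
  unfold nrm
  congr 1
  ext k
  rw [norm_mul, norm_ek_real, mul_one]

theorem W.shift {μ M : ℝ} {F : ℂ → ℂ} (hF : W μ M F) (t : ℝ) : W μ M (fun z => F (z + t)) := by
  obtain ⟨a, ha, hM⟩ := hF
  refine ⟨_, ha.shift t, ?_⟩
  rwa [nrm_shift]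

theorem W.shift_sub {μ M : ℝ} {F : ℂ → ℂ} (hF : W μ M F) (t : ℝ) :
    W μ M (fun z => F (z - t)) := by
  have := hF.shift (-t)
  simpa [sub_eq_add_neg] using this

/-- the change of variables of the convolution -/
def cvEquiv : ℤ × ℤ ≃ ℤ × ℤ where
  toFun := fun p => (p.2, p.1 - p.2)
  invFun := fun p => (p.1 + p.2, p.1)
  left_inv := fun p => by simp
  right_inv := fun p => by simp

theorem hasSum_cv {α : Type*} [AddCommMonoid α] [TopologicalSpace α] {f : ℤ → ℤ → α} {s : α}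
    (h : HasSum (fun p : ℤ × ℤ => f p.1 p.2) s) :
    HasSum (fun p : ℤ × ℤ => f p.2 (p.1 - p.2)) s :=
  (Equiv.hasSum_iff cvEquiv).2 h

/-- the convolution -/
def cv (a b : ℤ → ℂ) (n : ℤ) : ℂ := ∑' k, a k * b (n - k)

section conv

variable {μ : ℝ} (hμ : 0 ≤ μ) {a b : ℤ → ℂ} (ha : Summable fun k => ‖a k‖ * wt μ k)
  (hb : Summable fun k => ‖b k‖ * wt μ k)

include ha hb in
theorem cv_hasSum : HasSum (fun p : ℤ × ℤ => (‖a p.2‖ * wt μ p.2) * (‖b (p.1 - p.2)‖ *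
      wt μ (p.1 - p.2))) (nrm μ a * nrm μ b) := by
  have hprod : Summable fun p : ℤ × ℤ => (‖a p.1‖ * wt μ p.1) * (‖b p.2‖ * wt μ p.2) :=
    ha.mul_of_nonneg hb (fun k => mul_nonneg (norm_nonneg _) (wt_pos μ k).le)
      (fun k => mul_nonneg (norm_nonneg _) (wt_pos μ k).le)
  exact hasSum_cv (f := fun k l => (‖a k‖ * wt μ k) * (‖b l‖ * wt μ l))
    (ha.hasSum.mul hb.hasSum hprod)

include hμ in
theorem cv_le (a b : ℤ → ℂ) (p : ℤ × ℤ) : ‖a p.2 * b (p.1 - p.2)‖ * wt μ p.1 ≤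
      (‖a p.2‖ * wt μ p.2) * (‖b (p.1 - p.2)‖ * wt μ (p.1 - p.2)) := by
  have h1 := wt_add_le hμ p.2 (p.1 - p.2)
  rw [show p.2 + (p.1 - p.2) = p.1 by ring] at h1
  rw [norm_mul]
  calc ‖a p.2‖ * ‖b (p.1 - p.2)‖ * wt μ p.1
      ≤ ‖a p.2‖ * ‖b (p.1 - p.2)‖ * (wt μ p.2 * wt μ (p.1 - p.2)) :=
        mul_le_mul_of_nonneg_left h1 (by positivity)
    _ = _ := by ring

include hμ ha hb in
theorem cv_summable : Summable fun p : ℤ × ℤ => ‖a p.2 * b (p.1 - p.2)‖ * wt μ p.1 := by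
  apply Summable.of_nonneg_of_le _ (cv_le hμ a b) (cv_hasSum ha hb).summable
  intro p
  exact mul_nonneg (norm_nonneg _) (wt_pos μ _).le

include hμ ha hb in
theorem cv_fib (n : ℤ) : Summable fun k => ‖a k * b (n - k)‖ := by
  have h1 := (cv_summable hμ ha hb).prod_factor n
  have h2 := h1.mul_right ((wt μ n)⁻¹)
  refine h2.congr fun k => ?_
  rw [mul_assoc, mul_inv_cancel₀ (wt_pos μ n).ne', mul_one]

include hμ ha hb in
theorem cv_norm_le (n : ℤ) : ‖cv a b n‖ * wt μ n ≤ ∑' k, ‖a k * b (n - k)‖ * wt μ n := by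
  rw [tsum_mul_right]
  exact mul_le_mul_of_nonneg_right (norm_tsum_le_tsum_norm (cv_fib hμ ha hb n)) (wt_pos μ n).le

include hμ ha hb in
theorem cv_summ : Summable fun n => ‖cv a b n‖ * wt μ n :=
  Summable.of_nonneg_of_le (fun n => mul_nonneg (norm_nonneg _) (wt_pos μ n).le)
    (cv_norm_le hμ ha hb) (cv_summable hμ ha hb).prod

include hμ ha hb in
theorem cv_nrm_le : nrm μ (cv a b) ≤ nrm μ a * nrm μ b := by
  have h8 : nrm μ (cv a b) ≤ ∑' n, ∑' k, ‖a k * b (n - k)‖ * wt μ n :=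
    (cv_summ hμ ha hb).tsum_le_tsum (cv_norm_le hμ ha hb) (cv_summable hμ ha hb).prod
  refine h8.trans ?_
  rw [← (cv_summable hμ ha hb).tsum_prod, ← (cv_hasSum ha hb).tsum_eq]
  exact (cv_summable hμ ha hb).tsum_le_tsum (cv_le hμ a b) (cv_hasSum ha hb).summable

end conv

theorem mul_hasSum {f g : ℤ → ℂ} {s t : ℂ} (hf : HasSum f s) (hg : HasSum g t)
    (hf' : Summable fun k => ‖f k‖) (hg' : Summable fun k => ‖g k‖) :
    HasSum (fun p : ℤ × ℤ => f p.1 * g p.2) (s * t) :=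
  hf.mul hg (summable_mul_of_summable_norm hf' hg')

theorem summable_norm_ek {μ : ℝ} {a : ℤ → ℂ} (h : Summable fun k => ‖a k‖ * wt μ k) {z : ℂ}
    (hz : z ∈ V μ) : Summable fun k => ‖a k * ek k z‖ := by
  apply Summable.of_nonneg_of_le (fun k => norm_nonneg _) _ h
  intro k
  rw [norm_mul]
  exact mul_le_mul_of_nonneg_left (norm_ek_le hz k) (norm_nonneg _)

/-- a product of two absolutely convergent series -/
theorem Rep.mul {μ : ℝ} (hμ : 0 ≤ μ) {F G : ℂ → ℂ} {a b : ℤ → ℂ} (hF : Rep μ F a)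
    (hG : Rep μ G b) : Rep μ (fun z => F z * G z) (cv a b) := by
  refine ⟨cv_summ hμ hF.summ hG.summ, ?_⟩
  intro z hz
  have h3 := mul_hasSum (hF.eq z hz) (hG.eq z hz) (summable_norm_ek hF.summ hz)
    (summable_norm_ek hG.summ hz)
  have h4 : HasSum (fun p : ℤ × ℤ => (a p.2 * ek p.2 z) * (b (p.1 - p.2) * ek (p.1 - p.2) z))
      (F z * G z) := hasSum_cv (f := fun k l => (a k * ek k z) * (b l * ek l z)) h3
  have h5 : ∀ n : ℤ, HasSum (fun k => (a k * ek k z) * (b (n - k) * ek (n - k) z))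
      (cv a b n * ek n z) := by
    intro n
    have h6 : HasSum (fun k => a k * b (n - k)) (cv a b n) :=
      (cv_fib hμ hF.summ hG.summ n).of_norm.hasSum
    have h7 := h6.mul_right (ek n z)
    have h8 : (fun k => (a k * ek k z) * (b (n - k) * ek (n - k) z)) =
        fun k => a k * b (n - k) * ek n z := by
      funext k
      have : ek n z = ek k z * ek (n - k) z := by
        rw [← ek_add_left]
        congr 1
        ring
      rw [this]
      ring
    rw [h8]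
    exact h7
  exact h4.prod_fiberwise h5

theorem W.mul {μ M N : ℝ} (hμ : 0 ≤ μ) {F G : ℂ → ℂ} (hF : W μ M F) (hG : W μ N G) :
    W μ (M * N) (fun z => F z * G z) := by
  obtain ⟨a, ha, hM⟩ := hF
  obtain ⟨b, hb, hN⟩ := hG
  exact ⟨_, Rep.mul hμ ha hb, (cv_nrm_le hμ ha.summ hb.summ).trans
    (mul_le_mul hM hN (nrm_nonneg _ _) ((nrm_nonneg _ _).trans hM))⟩

end

end Pool.Agent.H30KAM
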